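import Pool.Agent.Lib.MP_72e2e6_nt.P3.G.Spec

/-!
# MP_72e2e6_nt, theorem T3p, part G: most functions are deep
-/

namespace Pool.Agent.MP72P

open IntermediateField

private theorem dep_card {A : Type} [AddCommGroup A] (N 𝒟 : AddSubgroup A)
    (hfin : (𝒟 : Set A).Finite) (L : ℕ) (D : Fin L → A) (hD : ∀ i, D i ∈ 𝒟)
    (hN : ∀ i k, i < k → D i - D k ∉ N) :
    L * {x : A | x ∈ 𝒟 ∧ x ∈ N}.ncard ≤ Nat.card 𝒟 := by
  have hf : Finite 𝒟 := hfin
  have hf2 : Finite {x : A | x ∈ 𝒟 ∧ x ∈ N} := (hfin.subset fun x hx => hx.1)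
  have h1 : L * {x : A | x ∈ 𝒟 ∧ x ∈ N}.ncard =
      Nat.card (Fin L × {x : A | x ∈ 𝒟 ∧ x ∈ N}) := by
    rw [Nat.card_prod, Nat.card_eq_fintype_card, Fintype.card_fin, Nat.card_coe_set_eq]
  rw [h1]
  refine Nat.card_le_card_of_injective (fun q => (⟨D q.1 + q.2.1, 𝒟.add_mem (hD _) q.2.2.1⟩ : 𝒟)) ?_
  rintro ⟨i, x, hx1, hx2⟩ ⟨k, y, hy1, hy2⟩ h
  have h2 : D i + x = D k + y := congrArg Subtype.val h
  have h3 : ∀ a b : Fin L, ∀ u w : A, u ∈ N → w ∈ N → D a + u = D b + w → ¬ a < b := by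
    intro a b u w hu hw h4 h5
    apply hN a b h5
    have h6 : D a - D b = w - u := by
      rw [sub_eq_sub_iff_add_eq_add, h4, add_comm]
    rw [h6]
    exact N.sub_mem hw hu
  have h4 : i = k := by
    rcases lt_trichotomy i k with h5 | h5 | h5
    · exact absurd h5 (h3 i k x y hx2 hy2 h2)
    · exact h5
    · exact absurd h5 (h3 k i y x hy2 hx2 h2.symm)
  subst h4
  have h5 : x = y := add_left_cancel h2
  subst h5
  rfl

section

variable {p : ℕ} [hp : Fact p.Prime] {K : Type} [Field K] [CharP K p] (v : AbsoluteValue K ℝ)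

/-- The functions which are close to the values of `y ^ p - y`. -/
private noncomputable def depN (hu : IsUltrametricDist v.Completion) (hc : CharP v.Completion p)
    (M : ℝ) (hM : 0 < M) : AddSubgroup K where
  carrier := {x | ∃ y : v.Completion, ‖algebraMap K v.Completion x - (y ^ p - y)‖ < M}
  zero_mem' := ⟨0, by
    rw [map_zero, zero_pow hp.out.ne_zero, sub_zero, sub_zero, norm_zero]
    exact hM⟩
  add_mem' := by
    rintro a b ⟨y, hy⟩ ⟨z, hz⟩
    refine ⟨y + z, ?_⟩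
    have h1 : algebraMap K v.Completion (a + b) - ((y + z) ^ p - (y + z)) =
        (algebraMap K v.Completion a - (y ^ p - y)) +
          (algebraMap K v.Completion b - (z ^ p - z)) := by
      rw [map_add, add_pow_char]
      ring
    rw [h1]
    exact (IsUltrametricDist.norm_add_le_max _ _).trans_lt (max_lt hy hz)
  neg_mem' := by
    rintro a ⟨y, hy⟩
    refine ⟨-y, ?_⟩
    have h2 : (-y) ^ p = -(y ^ p) := by
      have h3 : (y + -y) ^ p = y ^ p + (-y) ^ p := add_pow_char _ _ _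
      rw [add_neg_cancel, zero_pow hp.out.ne_zero] at h3
      exact (neg_eq_of_add_eq_zero_right h3.symm).symm
    have h1 : algebraMap K v.Completion (-a) - ((-y) ^ p - (-y)) =
        -(algebraMap K v.Completion a - (y ^ p - y)) := by
      rw [map_neg, h2]
      ring
    rw [h1, norm_neg]
    exact hy

end

private theorem dep_seq (hNa : S_Na) (hDsc : S_Dsc) (hApp : S_App) (hLc1 : S_Lc1) (p : ℕ)
    [hp : Fact p.Prime] (K : Type) [Field K] [CharP K p] (hK : GFld p K) (J : Type) [Finite J]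
    (av : J → AbsoluteValue K ℝ) (hav : Pls av) (M : ℝ) (hM : 1 < M) (j : J) (L : ℕ) :
    ∃ N : AddSubgroup (OS av), (∀ x : OS av, (∃ y : (av j).Completion,
      ‖algebraMap K (av j).Completion (x : K) - (y ^ p - y)‖ < M) → x ∈ N) ∧
      ∃ D : Fin L → OS av, ∀ i k, i < k → D i - D k ∉ N := by
  obtain ⟨Q, ϖ, R, hLF⟩ := hDsc p K hK (av j) (hav.ntr j)
  obtain ⟨l1, -, l3, l4, -, -, l7, -, -, l10, -⟩ := hLc1 p K (av j) Q ϖ R hLF
  obtain ⟨C, hC⟩ := hApp p K hK J av hav j 1 one_pos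
  have hna : IsNonarchimedean (av j) := hNa p K (av j)
  have hM0 : 0 < M := one_pos.trans hM
  have hpi0 := hLF.pi0
  have hpi1 := hLF.pi1
  -- values which are not close
  have key : ∀ (x : K) (l : ℕ), ¬ p ∣ l → av j x = (av j ϖ)⁻¹ ^ l → M ≤ av j x →
      x ∉ depN (av j) l3 l7 M hM0 := by
    rintro x l hl hx hxM ⟨y, hy⟩
    have h1 : ‖algebraMap K (av j).Completion x‖ = av j x := l1 x
    have h2 : ‖y ^ p - y‖ = ‖algebraMap K (av j).Completion x‖ := by
      have h3 : ‖algebraMap K (av j).Completion x - (y ^ p - y)‖ <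
          ‖algebraMap K (av j).Completion x‖ := by
        rw [h1]
        exact hy.trans_le hxM
      have h4 := IsUltrametricDist.norm_add_eq_max_of_norm_ne_norm (x := algebraMap K (av j).Completion x)
        (y := -(algebraMap K (av j).Completion x - (y ^ p - y))) (by
          rw [norm_neg]
          exact h3.ne')
      have h5 : algebraMap K (av j).Completion x +
          -(algebraMap K (av j).Completion x - (y ^ p - y)) = y ^ p - y := by ring
      rw [h5, norm_neg, max_eq_left h3.le] at h4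
      exact h4
    have h3 : 1 < ‖y ^ p - y‖ := by
      rw [h2, h1]
      exact hM.trans_le hxM
    obtain ⟨h4, h5⟩ := l10 y h3
    have hy0 : y ≠ 0 := by
      rintro rfl
      rw [norm_zero] at h4
      linarith
    obtain ⟨i, hi⟩ := l4 y hy0
    rw [h2, h1, hx, hi, inv_pow, ← zpow_natCast, ← zpow_natCast, ← zpow_mul, ← zpow_neg] at h5
    have h6 : (-(l : ℤ)) = i * p := by
      have hinj : Function.Injective fun n : ℤ => (av j ϖ) ^ n :=
        zpow_right_injective₀ hpi0 hpi1.ne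
      exact hinj h5
    apply hl
    have h7 : (p : ℤ) ∣ (l : ℤ) := ⟨-i, by linarith⟩
    exact_mod_cast h7
  -- the exponents
  have hbig : ∃ m : ℕ, max C M < (av j ϖ)⁻¹ ^ m :=
    pow_unbounded_of_one_lt _ ((one_lt_inv₀ hpi0).2 hpi1)
  obtain ⟨m, hm⟩ := hbig
  have hge : ∀ l : ℕ, m ≤ l → max C M < (av j ϖ)⁻¹ ^ l := fun l hl =>
    hm.trans_le (pow_le_pow_right₀ ((one_lt_inv₀ hpi0).2 hpi1).le hl)
  have hex : ∀ l : ℕ, m ≤ l → ∃ f : OS av, av j (f : K) = (av j ϖ)⁻¹ ^ l := by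
    intro l hl
    obtain ⟨f, hf, hfC, -⟩ := hC (ϖ⁻¹ ^ l)
    refine ⟨⟨f, hf⟩, ?_⟩
    have h1 : av j (ϖ⁻¹ ^ l) = (av j ϖ)⁻¹ ^ l := by
      rw [map_pow, map_inv₀]
    have h2 : av j (ϖ⁻¹ ^ l - f) < av j (ϖ⁻¹ ^ l) := by
      rw [h1]
      exact hfC.trans_lt ((le_max_left _ _).trans_lt (hge l hl))
    have h3 : f = ϖ⁻¹ ^ l + -(ϖ⁻¹ ^ l - f) := by ring
    change av j f = _
    have h4 : av j f ≤ av j (ϖ⁻¹ ^ l) := by
      rw [h3]
      refine (hna _ _).trans (max_le le_rfl ?_)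
      rw [AbsoluteValue.map_neg]
      exact h2.le
    have h5 : av j (ϖ⁻¹ ^ l) ≤ av j f := by
      by_contra h6
      push Not at h6
      have h7 : ϖ⁻¹ ^ l = f + (ϖ⁻¹ ^ l - f) := by ring
      have h8 : av j (ϖ⁻¹ ^ l) < av j (ϖ⁻¹ ^ l) := by
        conv_lhs => rw [h7]
        exact (hna _ _).trans_lt (max_lt h6 h2)
      exact lt_irrefl _ h8
    rw [← h1]
    exact le_antisymm h4 h5
  have hexi : ∀ i : Fin L, ∃ f : OS av, av j (f : K) = (av j ϖ)⁻¹ ^ (p * (m + i) + 1) := by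
    intro i
    apply hex
    have := hp.out.one_lt
    nlinarith [Nat.zero_le (i : ℕ)]
  choose D hD using hexi
  refine ⟨(depN (av j) l3 l7 M hM0).comap (OS av).subtype.toAddMonoidHom, fun x hx => hx, D, ?_⟩
  intro i k hik hmem
  have hlt : av j (D i : K) < av j (D k : K) := by
    rw [hD, hD]
    apply pow_lt_pow_right₀ ((one_lt_inv₀ hpi0).2 hpi1)
    have h1 : (i : ℕ) < (k : ℕ) := hik
    have := hp.out.pos
    nlinarith
  have h1 : av j ((D i : K) - (D k : K)) = av j (D k : K) := by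
    have h2 : av j ((D i : K) - (D k : K)) ≤ av j (D k : K) := by
      rw [sub_eq_add_neg]
      refine (hna _ _).trans (max_le hlt.le ?_)
      rw [AbsoluteValue.map_neg]
    refine le_antisymm h2 ?_
    by_contra h6
    push Not at h6
    have h7 : (D k : K) = (D i : K) + -((D i : K) - (D k : K)) := by ring
    have h8 : av j (D k : K) < av j (D k : K) := by
      conv_lhs => rw [h7]
      refine (hna _ _).trans_lt (max_lt hlt ?_)
      rw [AbsoluteValue.map_neg]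
      exact h6
    exact lt_irrefl _ h8
  refine key ((D i : K) - (D k : K)) (p * (m + k) + 1) ?_ ?_ ?_ hmem
  · intro h
    have h2 : p ∣ 1 := (Nat.dvd_add_right (dvd_mul_right p (m + k))).1 h
    exact hp.out.one_lt.ne' (Nat.dvd_one.1 h2)
  · rw [h1, hD]
  · rw [h1, hD]
    have h2 : m ≤ p * (m + k) + 1 := by
      have := hp.out.one_lt
      nlinarith [Nat.zero_le (k : ℕ)]
    exact (le_max_right _ _).trans (hge _ h2).le

theorem tDep : S_Na → S_Dsc → S_App → S_Lc1 → S_Dep := by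
  classical
  intro hNa hDsc hApp hLc1 p hp K _ _ hK J _ av hav M ε hε
  have hJ := Fintype.ofFinite J
  obtain ⟨M', hM'⟩ : ∃ M' : ℝ, M' = max M 2 := ⟨_, rfl⟩
  have hM1 : 1 < M' := by
    rw [hM']
    exact lt_of_lt_of_le (by norm_num) (le_max_right _ _)
  obtain ⟨L, hL⟩ := exists_nat_gt ((Fintype.card J : ℝ) / ε)
  have hL0 : (0 : ℝ) < L := lt_of_le_of_lt (by positivity) hL
  have hseq := fun j => dep_seq hNa hDsc hApp hLc1 p K hK J av hav M' hM1 j L
  choose N hN D hD using hseq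
  -- the bound
  have hb : ∃ e₀ : ℕ, ∀ j i, D j i ∈ FS av e₀ := by
    obtain ⟨B, hB⟩ : ∃ B : ℝ, ∀ q : J × Fin L × J, av q.1 ((D q.2.2 q.2.1 : OS av) : K) ≤ B := by
      obtain ⟨B, hB⟩ := (Set.finite_range fun q : J × Fin L × J =>
        av q.1 ((D q.2.2 q.2.1 : OS av) : K)).bddAbove
      exact ⟨B, fun q => hB ⟨q, rfl⟩⟩
    obtain ⟨e₀, he₀⟩ := pow_unbounded_of_one_lt B (one_lt_two (α := ℝ))
    exact ⟨e₀, fun j i j' _ => (hB (j', i, j)).trans he₀.le⟩
  obtain ⟨e₀, he₀⟩ := hb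
  refine ⟨e₀, fun 𝒟 hfin hle => ?_⟩
  have hcard : ∀ j, L * {x : OS av | x ∈ 𝒟 ∧ x ∈ N j}.ncard ≤ Nat.card 𝒟 := fun j =>
    dep_card (N j) 𝒟 hfin L (D j) (fun i => hle (he₀ j i)) (hD j)
  have hsub : {D : OS av | D ∈ 𝒟 ∧ ∃ j, ∃ y : (av j).Completion,
      ‖algebraMap K (av j).Completion (D : K) - (y ^ p - y)‖ < M} ⊆
      ⋃ j ∈ (Finset.univ : Finset J), {x : OS av | x ∈ 𝒟 ∧ x ∈ N j} := by
    rintro x ⟨hx, j, y, hy⟩
    rw [Set.mem_iUnion₂]
    refine ⟨j, Finset.mem_univ j, hx, hN j x ⟨y, ?_⟩⟩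
    rw [hM']
    exact hy.trans_le (le_max_left _ _)
  have hfu : (⋃ j ∈ (Finset.univ : Finset J), {x : OS av | x ∈ 𝒟 ∧ x ∈ N j}).Finite :=
    hfin.subset (Set.iUnion₂_subset fun j _ x hx => hx.1)
  have h1 : {D : OS av | D ∈ 𝒟 ∧ ∃ j, ∃ y : (av j).Completion,
      ‖algebraMap K (av j).Completion (D : K) - (y ^ p - y)‖ < M}.ncard ≤
      ∑ j, {x : OS av | x ∈ 𝒟 ∧ x ∈ N j}.ncard :=
    (Set.ncard_le_ncard hsub hfu).trans (Finset.set_ncard_biUnion_le _ _)
  have h2 : (L : ℝ) * ∑ j, ({x : OS av | x ∈ 𝒟 ∧ x ∈ N j}.ncard : ℝ) ≤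
      Fintype.card J * Nat.card 𝒟 := by
    rw [Finset.mul_sum]
    calc ∑ j, (L : ℝ) * ({x : OS av | x ∈ 𝒟 ∧ x ∈ N j}.ncard : ℝ) ≤ ∑ _j : J, (Nat.card 𝒟 : ℝ) :=
          Finset.sum_le_sum fun j _ => by exact_mod_cast hcard j
      _ = Fintype.card J * Nat.card 𝒟 := by
          rw [Finset.sum_const, Finset.card_univ, nsmul_eq_mul]
  have h3 : ({D : OS av | D ∈ 𝒟 ∧ ∃ j, ∃ y : (av j).Completion,
      ‖algebraMap K (av j).Completion (D : K) - (y ^ p - y)‖ < M}.ncard : ℝ) ≤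
      ∑ j, ({x : OS av | x ∈ 𝒟 ∧ x ∈ N j}.ncard : ℝ) := by exact_mod_cast h1
  have h4 : (Fintype.card J : ℝ) ≤ ε * L := by
    rw [div_lt_iff₀ hε] at hL
    linarith
  have h5 : (0 : ℝ) ≤ Nat.card 𝒟 := Nat.cast_nonneg _
  refine h3.trans ?_
  have h6 : (L : ℝ) * ∑ j, ({x : OS av | x ∈ 𝒟 ∧ x ∈ N j}.ncard : ℝ) ≤
      L * (ε * Nat.card 𝒟) := by
    refine h2.trans ?_
    nlinarith [mul_le_mul_of_nonneg_right h4 h5]
  exact le_of_mul_le_mul_left h6 hL0

end Pool.Agent.MP72P
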