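import Pool.Agent.Lib.MP_72e2e6_nt.P3.G.Spec

/-!
# MP_72e2e6_nt, theorem T3p, part G: the group `GS`
-/

set_option autoImplicit false

namespace Pool.Agent.MP72P

open IntermediateField

theorem tHst : S_Frc → S_Has → S_Twb → S_Omi → S_Omi1 → S_Hst := by
  intro hFrc hHas hTwb hOmi hOmi1 p _ K _ _ hK J av α h hh
  have hfin := hh.fin
  have hnem := hh.nem
  obtain ⟨-, hfr, -, hic⟩ := hFrc p K hK J av hh.pls
  have hp1 : p - 1 ≠ 0 := by
    have := (Fact.out : p.Prime).two_le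
    omega
  have hα0 : α ≠ 0 := by
    rintro rfl
    have h1 := hh.al
    rw [zero_pow hp1] at h1
    exact hh.h0 ((map_eq_zero (algebraMap K (Kgs K))).1 h1.symm)
  have hmem : h ∈ OS av := fun v h1 _ h3 => (hh.hu v h1 h3).le
  have hmem' : h⁻¹ ∈ OS av := fun v h1 _ h3 => by
    rw [map_inv₀, hh.hu v h1 h3, inv_one]
  have hunit : IsUnit (⟨h, hmem⟩ : OS av) :=
    IsUnit.of_mul_eq_one ⟨h⁻¹, hmem'⟩ (Subtype.ext (mul_inv_cancel₀ hh.h0))
  obtain ⟨-, -, -, -, hgal, -, hαm⟩ := hTwb p (OS av) K (Kgs K) α h hα0 hh.al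
  have halo : alo p av α = ⟨α, hαm⟩ := dif_pos hαm
  have haloc : ((alo p av α : OmS p av α) : Kgs K) = α := by rw [halo]
  have halop : alo p av α ^ (p - 1) = algebraMap K (OmS p av α) h := by
    apply Subtype.ext
    rw [halo]
    exact hh.al
  have halo0 : alo p av α ≠ 0 := by
    intro h0
    apply hα0
    rw [← haloc, h0]
    rfl
  obtain ⟨ho1, ho2, ho3, ho4⟩ := hOmi p (OS av) K (Kgs K) α ⟨h, hmem⟩ hunit hh.al (alo p av α) haloc
  obtain ⟨hq1, hq2⟩ := hOmi1 p (OS av) K (Kgs K) α ⟨h, hmem⟩ hunit hh.al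
  obtain ⟨⟨hch, -⟩, -, -, -, -, -⟩ := hHas p K (OmS p av α) (alo p av α) h halo0 halop
  obtain ⟨-, -, hu3, hu4, hu5, hu6⟩ := hHas p K (OmS p av α) (1 : OmS p av α) 1 one_ne_zero
    (by rw [one_pow, map_one])
  rw [map_one] at hu3 hu4 hu5
  have hroot : ∀ f ∈ OS av, ∃ x : OmS p av α, Ph p 1 x = algebraMap K _ f :=
    fun f hf => ho4 ⟨f, hf⟩
  refine ⟨hfr, hic, hgal, hα0, haloc, halop, hch, ho1, ?_, ?_, hroot, hq1, ?_, ?_, ?_, ?_⟩
  · intro H hH
    obtain ⟨f, c, hc⟩ := ho2 H hH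
    exact ⟨(f : K), f.2, c, hc⟩
  · intro f hf
    exact ho3 ⟨f, hf⟩
  · intro H hH
    obtain ⟨f, hf⟩ := hq2 H hH
    exact ⟨(f : K), f.2, hf⟩
  · intro f hf
    obtain ⟨hc, -⟩ := hu3 f (hroot f hf)
    refine ⟨hc.loc, fun a b => ?_⟩
    have h1 := hc.mul a b
    rw [hu6, one_mul] at h1
    exact h1
  · intro f hf f' hf' g
    obtain ⟨c, hc⟩ := hu4 f f' (hroot f hf) (hroot f' hf')
    have h1 := hc g
    rw [hu6, one_mul, sub_self, add_zero] at h1
    exact h1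
  · intro f hf
    have h1 := hu5 f (hroot f hf)
    constructor
    · intro h2
      obtain ⟨x, hx⟩ := h1.1 ⟨0, fun g => by
        rw [mul_zero, sub_zero]
        exact h2 g⟩
      refine ⟨x, ?_⟩
      rw [Ph, one_mul] at hx
      exact hx
    · rintro ⟨x, hx⟩ g
      obtain ⟨c, hc⟩ := h1.2 ⟨x, by
        rw [Ph, one_mul]
        exact hx⟩
      have h2 := hc g
      rw [hu6, one_mul, sub_self] at h2
      exact h2

end Pool.Agent.MP72P
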