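import Pool.Agent.Lib.MP_72e2e6_nt.P3.G.Spec

/-!
# MP_72e2e6_nt, theorem T3p, part G: unramified crossed homomorphisms
-/

namespace Pool.Agent.MP72P

open IntermediateField

private theorem nrf_opinj {p : ℕ} [Fact p.Prime] {L : Type} [Field L] [CharP L p] {c c' : ZMod p}
    (h : op L c = op L c') : c = c' := by
  have h1 : ((c.val : ℕ) : L) = ((c'.val : ℕ) : L) := h
  rw [CharP.natCast_eq_natCast L p] at h1
  have h2 : ((c.val : ℕ) : ZMod p) = ((c'.val : ℕ) : ZMod p) := (ZMod.natCast_eq_natCast_iff _ _ _).2 h1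
  rwa [ZMod.natCast_zmod_val, ZMod.natCast_zmod_val] at h2

private theorem nrf_op1 {p : ℕ} [Fact p.Prime] {L : Type} [Field L] [CharP L p] :
    op (p := p) L 1 = 1 := by
  unfold op
  rw [ZMod.val_one p, Nat.cast_one]

private theorem nrf_op0 {p : ℕ} [Fact p.Prime] {L : Type} [Field L] :
    op (p := p) L 0 = 0 := by
  unfold op
  rw [ZMod.val_zero, Nat.cast_zero]

private theorem nrf_val {p : ℕ} [Fact p.Prime] {L : Type} [Field L] [CharP L p] (N : L → ℝ)
    (m1 : ∀ x, 0 ≤ N x) (m3 : ∀ x y, N (x * y) = N x * N y)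
    (m4 : ∀ x y, N (x + y) ≤ max (N x) (N y)) (h1 : N 1 = 1) (h2 : N (-1) = 1) (X T Y h : L)
    (hX : N (X - T) ≤ 1) (hT : N (Y - T) ≤ 1) (hh : N h = 1) : N (Ph p h X - Ph p h Y) ≤ 1 := by
  have hneg : ∀ x, N (-x) = N x := by
    intro x
    rw [← neg_one_mul, m3, h2, one_mul]
  have hpow : ∀ (x : L) (n : ℕ), N x ≤ 1 → N (x ^ n) ≤ 1 := by
    intro x n hx
    induction n with
    | zero => rw [pow_zero, h1]
    | succ n ih =>
      rw [pow_succ, m3]
      exact mul_le_one₀ ih (m1 _) hx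
  have hd : N (X - Y) ≤ 1 := by
    have e1 : X - Y = (X - T) + -(Y - T) := by ring
    rw [e1]
    refine (m4 _ _).trans (max_le hX ?_)
    rw [hneg]
    exact hT
  have hf : Ph p h X - Ph p h Y = (X - Y) ^ p + -(h * (X - Y)) := by
    rw [sub_pow_char]
    unfold Ph
    ring
  rw [hf]
  refine (m4 _ _).trans (max_le (hpow _ _ hd) ?_)
  rw [hneg, m3, hh, one_mul]
  exact hd

/-- The local statement. -/
private theorem nrf_loc {p : ℕ} [Fact p.Prime] {K : Type} [Field K] [CharP K p] (hK : GFld p K)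
    (hDsc : S_Dsc) (hLc1 : S_Lc1) (hLc2 : S_Lc2) (hNr : S_Nr) (hHas : S_Has) (hSep : S_Sep)
    (hRes : S_Res) (hOnr : S_Onr) {J : Type} (av : J → AbsoluteValue K ℝ) (α : Kgs K) (h : K)
    (hs : HS p av α h) (α0 : α ≠ 0) (H : Gal(Kgs K/K) → ZMod p) (hU : Unr p av H) (f₀ : K)
    (c₀ : ZMod p) (hH : ∀ g, H g = hP p α f₀ g + (c₀ - omc p α g * c₀))
    (v : AbsoluteValue K ℝ) (hv : v.IsNontrivial) (hvj : ∀ j, ¬ v.IsEquiv (av j)) :
    ∃ (x : Kvs v) (t : K), Ph p (algebraMap v.Completion (Kvs v) (algebraMap K v.Completion h)) x =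
      algebraMap v.Completion (Kvs v) (algebraMap K v.Completion f₀) ∧
      nm v (x - algebraMap v.Completion (Kvs v) (algebraMap K v.Completion t)) ≤ 1 := by
  obtain ⟨Q, ϖ, R, hLF⟩ := hDsc p K hK v hv
  obtain ⟨l1, l2, l3, -, -, -, l7, -, -, -, -⟩ := hLc1 p K v Q ϖ R hLF
  obtain ⟨m1, m2, m3, m4, m5, m6, -, -, -, m10⟩ := hLc2 p K v Q ϖ R hLF
  obtain ⟨-, -, -, -, -, n6, -, -, n9⟩ := hNr p K v Q ϖ R hLF
  have := l7
  have := m10
  obtain ⟨ι, hι⟩ := hU v hv hvj
  obtain ⟨o1, o2, -⟩ := hOnr p K hK J av α h hs v hv hvj ι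
  have hαO : α ∈ OmS p av α :=
    (le_sSup (Twr.bot : Twr p (OS av) K (Kgs K) α K⟮α⟯) : K⟮α⟯ ≤ OmS p av α)
      (mem_adjoin_simple_self K α)
  have hαN : ι α ∈ Knr p v := o1 α hαO
  have hια : ι α ≠ 0 := (map_ne_zero ι).2 α0
  have hιh : (ι α) ^ (p - 1) =
      algebraMap v.Completion (Kvs v) (algebraMap K v.Completion h) := by
    rw [← map_pow, hs.al, ι.commutes]
    exact IsScalarTower.algebraMap_apply K v.Completion (Kvs v) h
  obtain ⟨-, -, -, r4⟩ := hRes p K (Kgs K) v.Completion (Kvs v) ι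
  obtain ⟨r5, r6⟩ := r4 α h α0 hs.al
  obtain ⟨-, s2, -⟩ := hSep p K α h α0 hs.al
  obtain ⟨c, hc⟩ := r6 f₀ (s2 _)
  obtain ⟨⟨-, a1⟩, -, a3, -, -, -⟩ := hHas p v.Completion (Kvs v) (ι α)
    (algebraMap K v.Completion h) hια hιh
  -- the character is trivial on the geometric elements
  have hom : ∀ g : Gal(Kvs v/v.Completion), IsGeo p g → omc p (ι α) g = 1 := by
    intro g hg
    have e1 : g (ι α) = ι α := (n6 g).1 hg _ hαN
    have e2 := a1 g
    rw [e1] at e2
    have e3 : op (Kvs v) (omc p (ι α) g) = 1 := by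
      have e4 : (op (Kvs v) (omc p (ι α) g) - 1) * ι α = 0 := by
        rw [sub_mul, ← e2, one_mul, sub_self]
      rcases mul_eq_zero.1 e4 with e5 | e5
      · exact sub_eq_zero.1 e5
      · exact absurd e5 hια
    exact nrf_opinj (e3.trans nrf_op1.symm)
  have hP0 : ∀ g : Gal(Kvs v/v.Completion), IsGeo p g →
      hP p (ι α) (algebraMap K v.Completion f₀) g = 0 := by
    intro g hg
    have e1 := hι g hg
    rw [hH, hc g, r5 g, hom g hg] at e1
    have e2 : hP p (ι α) (algebraMap K v.Completion f₀) g + (c - 1 * c) + (c₀ - 1 * c₀) =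
      hP p (ι α) (algebraMap K v.Completion f₀) g := by ring
    rw [← e2]
    exact e1
  -- the root
  obtain ⟨x₀, hx₀⟩ := s2 (algebraMap K (Kgs K) f₀)
  have hroot : Ph p (algebraMap v.Completion (Kvs v) (algebraMap K v.Completion h)) (ι x₀) =
      algebraMap v.Completion (Kvs v) (algebraMap K v.Completion f₀) := by
    have e1 : ι (Ph p (α ^ (p - 1)) x₀) = ι (algebraMap K (Kgs K) f₀) := by rw [hx₀]
    rw [ι.commutes] at e1
    unfold Ph at e1 ⊢
    rw [map_sub, map_mul, map_pow, map_pow, hιh] at e1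
    rw [e1]
    exact IsScalarTower.algebraMap_apply K v.Completion (Kvs v) f₀
  obtain ⟨-, x, hx, hgx⟩ := a3 (algebraMap K v.Completion f₀) ⟨ι x₀, hroot⟩
  have hxN : x ∈ Knr p v := by
    rw [← InfiniteGalois.fixedField_fixingSubgroup (Knr p v)]
    rw [IntermediateField.mem_fixedField_iff]
    intro g hg
    have hgeo : IsGeo p g := by
      refine (n6 g).2 ?_
      intro y hy
      exact (IntermediateField.mem_fixingSubgroup_iff _ _).1 hg y hy
    rw [hgx g, hP0 g hgeo, nrf_op0, zero_mul, add_zero]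
  have hnat : ∀ n : ℕ, nm v ((n : ℕ) : Kvs v) ≤ 1 := by
    have h1 : nm v (1 : Kvs v) = 1 := by
      have := m5 1
      rw [map_one, norm_one] at this
      exact this
    intro n
    induction n with
    | zero => rw [Nat.cast_zero, (m2 0).2 rfl]; exact zero_le_one
    | succ n ih =>
      rw [Nat.cast_succ]
      exact (m4 _ _).trans (max_le ih h1.le)
  have hdiff : ∀ g : Gal(Kvs v/v.Completion), nm v (g x - x) ≤ 1 := by
    intro g
    rw [hgx g, add_sub_cancel_left, m3, o2, mul_one]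
    exact hnat _
  obtain ⟨y, hy⟩ := n9 x hxN hdiff
  obtain ⟨t, ht⟩ := l2 y 1 one_pos
  refine ⟨x, t, hx, ?_⟩
  have e1 : x - algebraMap v.Completion (Kvs v) (algebraMap K v.Completion t) =
      (x - algebraMap v.Completion (Kvs v) y) +
      algebraMap v.Completion (Kvs v) (y - algebraMap K v.Completion t) := by
    rw [map_sub]
    ring
  rw [e1]
  refine (m4 _ _).trans (max_le hy ?_)
  rw [m5]
  exact ht.le

/-- **Nrf**. Crossed homomorphisms of the absolute Galois group which are unramified outside the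
`av j`. -/
theorem tNrf (hNa : S_Na) (hDsc : S_Dsc) (hStr : S_Str) (hAlm : S_Alm) (hLc1 : S_Lc1)
    (hLc2 : S_Lc2) (hNr : S_Nr) (hHas : S_Has) (hSep : S_Sep) (hRes : S_Res) (hOnr : S_Onr) :
    S_Nrf := by
  classical
  intro p _ K _ _ hK J av α h hs H hH hU
  have hp : p.Prime := Fact.out
  have := hs.fin
  have α0 : α ≠ 0 := by
    intro h0
    have h1 := hs.al
    have hp1 : p - 1 ≠ 0 := by have := hp.two_le; omega
    rw [h0, zero_pow hp1] at h1
    exact hs.h0 ((algebraMap K (Kgs K)).injective (by rw [← h1, map_zero]))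
  obtain ⟨-, s2, s3⟩ := hSep p K α h α0 hs.al
  obtain ⟨f₀, c₀, hf₀⟩ := s3 H hH
  rcases eq_or_ne f₀ 0 with rfl | hf0
  · exact ⟨0, zero_mem _, c₀, hf₀⟩
  obtain ⟨m, av₁, hav₁, h1⟩ := hAlm p K hK f₀ hf0
  -- the combined family
  let av₂ : J ⊕ {k : Fin m // ∀ j, ¬ (av₁ k).IsEquiv (av j)} → AbsoluteValue K ℝ :=
    Sum.elim av fun k => av₁ k.1
  have hav₂ : Pls av₂ := by
    constructor
    · rintro (j | k)
      · exact hs.pls.ntr j
      · exact hav₁.ntr k.1
    · rintro (j | k) (j' | k') hne h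
      · exact hs.pls.inq j j' (fun h => hne (by rw [h])) h
      · exact k'.2 j h.symm
      · exact k.2 j' h
      · exact hav₁.inq k.1 k'.1 (fun h => hne (by rw [Subtype.ext h])) h
  obtain ⟨j0⟩ := hs.nem
  have hloc := fun k : {k : Fin m // ∀ j, ¬ (av₁ k).IsEquiv (av j)} =>
    nrf_loc hK hDsc hLc1 hLc2 hNr hHas hSep hRes hOnr av α h hs α0 H hU f₀ c₀ hf₀ (av₁ k.1)
      (hav₁.ntr k.1) k.2
  choose x t hx hxt using hloc
  obtain ⟨y, hy, hyt⟩ := hStr p K hK _ av₂ hav₂ (Sum.inl j0) (Sum.elim (fun _ => 0) t) 1 one_pos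
  have hyt' : ∀ k : {k : Fin m // ∀ j, ¬ (av₁ k).IsEquiv (av j)}, av₁ k.1 (y - t k) < 1 :=
    fun k => hyt (Sum.inr k) (by simp)
  have hmem : f₀ - Ph p h y ∈ OS av := by
    intro v hv hvn hvj
    by_cases hk : ∃ k, v.IsEquiv (av₁ k)
    · obtain ⟨k, hk⟩ := hk
      have hk2 : ∀ j, ¬ (av₁ k).IsEquiv (av j) := fun j h => hvj j (hk.trans h)
      refine hk.le_one_iff.2 ?_
      obtain ⟨Q, ϖ, R, hLF⟩ := hDsc p K hK (av₁ k) (hav₁.ntr k)
      obtain ⟨l1, -, -, -, -, -, -, -, -, -, -⟩ := hLc1 p K (av₁ k) Q ϖ R hLF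
      obtain ⟨m1, m2, m3, m4, m5, m6, -, -, -, m10⟩ := hLc2 p K (av₁ k) Q ϖ R hLF
      have := m10
      have hx' := hx ⟨k, hk2⟩
      have hxt' := hxt ⟨k, hk2⟩
      have hyt'' := hyt' ⟨k, hk2⟩
      generalize x ⟨k, hk2⟩ = X at hx' hxt'
      generalize t ⟨k, hk2⟩ = T at hxt' hyt''
      have hh : av₁ k h = 1 := hs.hu _ (hav₁.ntr k) hk2
      have n1 : nm (av₁ k) (1 : Kvs (av₁ k)) = 1 := by
        have := m5 1
        rw [map_one, norm_one] at this
        exact this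
      have n2 : nm (av₁ k) (-1 : Kvs (av₁ k)) = 1 := by
        have := m5 (-1)
        rw [map_neg, map_one, norm_neg, norm_one] at this
        exact this
      have hT : nm (av₁ k) (algebraMap _ (Kvs (av₁ k)) (algebraMap K (av₁ k).Completion y) -
          algebraMap _ (Kvs (av₁ k)) (algebraMap K (av₁ k).Completion T)) ≤ 1 := by
        rw [← map_sub, ← map_sub, m5, l1]
        exact hyt''.le
      have hh' : nm (av₁ k) (algebraMap _ (Kvs (av₁ k)) (algebraMap K (av₁ k).Completion h)) =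
          1 := by
        rw [m5, l1, hh]
      have key := nrf_val (p := p) (nm (av₁ k)) m1 m3 m4 n1 n2 X
        (algebraMap _ (Kvs (av₁ k)) (algebraMap K (av₁ k).Completion T))
        (algebraMap _ (Kvs (av₁ k)) (algebraMap K (av₁ k).Completion y))
        (algebraMap _ (Kvs (av₁ k)) (algebraMap K (av₁ k).Completion h)) hxt' hT hh'
      have hP : Ph p (algebraMap _ (Kvs (av₁ k)) (algebraMap K (av₁ k).Completion h))
          (algebraMap _ (Kvs (av₁ k)) (algebraMap K (av₁ k).Completion y)) =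
          algebraMap _ (Kvs (av₁ k)) (algebraMap K (av₁ k).Completion (Ph p h y)) := by
        unfold Ph
        rw [map_sub, map_sub, map_mul, map_mul, map_pow, map_pow]
      rw [hx', hP, ← map_sub, ← map_sub, m5, l1] at key
      exact key
    · have hk' : ∀ k, ¬ v.IsEquiv (av₁ k) := fun k h => hk ⟨k, h⟩
      have h5 : v f₀ = 1 := h1 v hv hk'
      have h6 : v y ≤ 1 := by
        refine hy v hv (hNa p K v) ?_
        rintro (j | k)
        · exact hvj j
        · exact hk' k.1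
      have h7 : v h = 1 := hs.hu v hv hvj
      have h8 : v (Ph p h y) ≤ 1 := by
        unfold Ph
        rw [sub_eq_add_neg]
        refine (hvn _ _).trans (max_le ?_ ?_)
        · rw [map_pow]
          exact pow_le_one₀ (v.nonneg _) h6
        · rw [AbsoluteValue.map_neg, map_mul, h7, one_mul]
          exact h6
      rw [sub_eq_add_neg]
      refine (hvn _ _).trans (max_le h5.le ?_)
      rw [AbsoluteValue.map_neg]
      exact h8
  -- the class
  obtain ⟨-, -, -, a4, a5, -⟩ := hHas p K (Kgs K) α h α0 hs.al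
  have hrt : ∀ f : K, ∃ x : Kgs K, Ph p (algebraMap K (Kgs K) h) x = algebraMap K (Kgs K) f := by
    intro f
    obtain ⟨x, hx⟩ := s2 (algebraMap K (Kgs K) f)
    exact ⟨x, by rw [← hs.al]; exact hx⟩
  obtain ⟨c1, hc1⟩ := a4 (f₀ - Ph p h y) (Ph p h y) (hrt _) (hrt _)
  obtain ⟨c2, hc2⟩ := (a5 (Ph p h y) (hrt _)).2 ⟨y, rfl⟩
  refine ⟨f₀ - Ph p h y, hmem, c₀ + c1 + c2, fun σ => ?_⟩
  have e1 := hc1 σ
  rw [sub_add_cancel, hc2 σ] at e1
  rw [hf₀ σ, e1]
  ring

end Pool.Agent.MP72P
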