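import Pool.Agent.Lib.MP_72e2e6_nt.P3.G.Spec

/-!
# MP_72e2e6_nt, theorem T3p, part G: unramified crossed homomorphisms in terms of `GS` (Nrg)
-/

namespace Pool.Agent.MP72P

open IntermediateField

/-- **Nrg.** -/
theorem tNrg : S_Has → S_Hst → S_Rgo → S_Nrf → S_Nrg := by
  intro hHas hHst hRgo hNrf p _ K _ _ hG J av α h hS'
  obtain ⟨-, -, i3, hα0, halo, hal, hch, -, -, hroot, -, -, -, -, -, -⟩ :=
    hHst p K hG J av α h hS'
  obtain ⟨-, -, -, hom, hhS, hhP, -⟩ := hRgo p K hG J av α h hS'
  have halo0 : alo p av α ≠ 0 := by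
    intro h0
    rw [h0] at halo
    exact hα0 halo.symm
  refine ⟨?_, ?_⟩
  · intro H hH hU
    obtain ⟨f, hf, c, hc⟩ := hNrf p K hG J av α h hS' H hH hU
    obtain ⟨c', hc'⟩ := hhP f hf
    obtain ⟨x, hx⟩ := hroot f hf
    rw [hal] at hx
    have hcoc : Coc (fun g (x : ZMod p) => omc p (K := K) (alo p av α) g * x)
        (hP p (alo p av α) f) :=
      ((hHas p K (OmS p av α) (alo p av α) h halo0 hal).2.2.1 f ⟨x, hx⟩).1
    refine ⟨fun g => hP p (alo p av α) f g + ((c - c') - omS p av α g * (c - c')), ?_, ?_⟩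
    · refine ⟨(hcoc.loc.prodMk hch.loc).comp
        (fun q : ZMod p × ZMod p => q.1 + ((c - c') - q.2 * (c - c'))), fun g g' => ?_⟩
      have h1 := hcoc.mul g g'
      have h2 := hch.mul g g'
      have h3 : hP p (alo p av α) f (g * g') =
          hP p (alo p av α) f g + omS p av α g * hP p (alo p av α) f g' := h1
      show hP p (alo p av α) f (g * g') + ((c - c') - omS p av α (g * g') * (c - c')) =
        hP p (alo p av α) f g + ((c - c') - omS p av α g * (c - c')) +
          omS p av α g * (hP p (alo p av α) f g' + ((c - c') - omS p av α g' * (c - c')))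
      rw [h3, h2]
      ring
    · intro σ
      show H σ = hP p (alo p av α) f (rG p av α σ) +
        ((c - c') - omS p av α (rG p av α σ) * (c - c'))
      rw [hc, hc', hom]
      ring
  · intro H hH hU
    have h1 : ∀ σ : Gal(Kgs K/K), omc p (1 : Kgs K) σ = 1 :=
      (hHas p K (Kgs K) 1 1 one_ne_zero (by rw [one_pow, map_one])).2.2.2.2.2
    have hS1 : HS p av (1 : Kgs K) (1 : K) :=
      { fin := hS'.fin
        nem := hS'.nem
        pls := hS'.pls
        al := by rw [one_pow, map_one]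
        h0 := one_ne_zero
        hu := fun v _ _ => map_one v }
    have hcoc : Coc (fun (σ : Gal(Kgs K/K)) (x : ZMod p) => omc p (1 : Kgs K) σ * x) H :=
      ⟨hH.loc, fun g g' => by
        show H (g * g') = H g + omc p (1 : Kgs K) g * H g'
        rw [hH.add, h1, one_mul]⟩
    obtain ⟨f, hf, c, hc⟩ := hNrf p K hG J av 1 1 hS1 H hcoc hU
    have h2 : ∀ σ, H σ = hP p (1 : Kgs K) f σ := by
      intro σ
      rw [hc, h1, one_mul, sub_self, add_zero]
    exact ⟨f, hf, h2, fun σ => by rw [hhS f hf, h2]⟩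

end Pool.Agent.MP72P
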