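import Pool.Agent.Lib.MP_72e2e6_nt.P3.G.Spec

/-!
# MP_72e2e6_nt, theorem T3p, part G: Onr, the field `OmS` is unramified outside the places `av j`
-/

set_option autoImplicit false

namespace Pool.Agent.MP72P

open IntermediateField

/-- The elements of norm at most one form a valuation subring. -/
private def Onr_V {K : Type} [Field K] (v : AbsoluteValue K ℝ)
    (h0 : ∀ x : Kvs v, 0 ≤ nm v x) (hz : ∀ x : Kvs v, nm v x = 0 ↔ x = 0)
    (hm : ∀ x y : Kvs v, nm v (x * y) = nm v x * nm v y)
    (ha : ∀ x y : Kvs v, nm v (x + y) ≤ max (nm v x) (nm v y)) :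
    ValuationSubring (Kvs v) :=
  have h1 : nm v 1 = 1 := by
    have := hm 1 1
    rw [mul_one] at this
    have hne : nm v 1 ≠ 0 := fun h => one_ne_zero ((hz _).1 h)
    exact (mul_left_cancel₀ hne (by rw [mul_one]; exact this)).symm
  have hneg : nm v (-1) = 1 := by
    have h2 : nm v (-1) * nm v (-1) = 1 := by rw [← hm, neg_mul_neg, mul_one, h1]
    nlinarith [h0 (-1)]
  { carrier := {x | nm v x ≤ 1}
    mul_mem' := by
      intro a b ha' hb'
      simp only [Set.mem_setOf_eq] at *
      rw [hm]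
      exact mul_le_one₀ ha' (h0 b) hb'
    one_mem' := h1.le
    add_mem' := fun {a b} ha' hb' => (ha a b).trans (max_le ha' hb')
    zero_mem' := by
      change nm v 0 ≤ 1
      rw [(hz 0).2 rfl]
      exact zero_le_one
    neg_mem' := by
      intro a ha'
      simp only [Set.mem_setOf_eq] at *
      rw [← neg_one_mul, hm, hneg, one_mul]
      exact ha'
    mem_or_inv_mem' := by
      intro x
      by_cases hx : nm v x ≤ 1
      · exact Or.inl hx
      · refine Or.inr ?_
        change nm v x⁻¹ ≤ 1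
        push Not at hx
        have hx0 : x ≠ 0 := by
          rintro rfl
          rw [(hz 0).2 rfl] at hx
          linarith
        have h2 : nm v x * nm v x⁻¹ = 1 := by rw [← hm, mul_inv_cancel₀ hx0, h1]
        nlinarith [h0 x⁻¹] }

theorem tOnr (hDsc : S_Dsc) (hLc1 : S_Lc1) (hLc2 : S_Lc2) (_hCst : S_Cst) (hNr : S_Nr)
    (hTwb : S_Twb) (hHst : S_Hst) (hRgo : S_Rgo) : S_Onr := by
  intro p _ K _ _ hK J av α h hh v hv hvj ι
  obtain ⟨Q, ϖ, R, hL⟩ := hDsc p K hK v hv
  obtain ⟨k1, -⟩ := hLc1 p K v Q ϖ R hL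
  obtain ⟨h0, hz, hm, ha, hx, -, -, -, -, hch⟩ := hLc2 p K v Q ϖ R hL
  obtain ⟨-, -, n3, n4, -, n6, -, n8, -⟩ := hNr p K v Q ϖ R hL
  obtain ⟨-, -, hgal, hα0, haloc, -⟩ := hHst p K hK J av α h hh
  obtain ⟨-, -, -, -, -, -, hro⟩ := hRgo p K hK J av α h hh
  obtain ⟨-, -, r3, -⟩ := hro v ι
  obtain ⟨-, tw2, -, -, -, -, hαm⟩ := hTwb p (OS av) K (Kgs K) α h hα0 hh.al
  have hp1 : p - 1 ≠ 0 := by
    have := (Fact.out : p.Prime).two_le
    omega
  have hpd : ¬ p ∣ p - 1 := fun hd => by
    have h1 := Nat.le_of_dvd (Nat.pos_of_ne_zero hp1) hd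
    have := (Fact.out : p.Prime).two_le
    omega
  set V := Onr_V v h0 hz hm ha with hV
  have hmem : ∀ x : Kvs v, x ∈ V ↔ nm v x ≤ 1 := fun x => Iff.rfl
  -- the norm of elements of K
  have hnK : ∀ x : K, nm v (algebraMap K (Kvs v) x) = v x := by
    intro x
    rw [IsScalarTower.algebraMap_apply K v.Completion (Kvs v), hx, k1]
  -- α
  have hal : (ι α) ^ (p - 1) = algebraMap K (Kvs v) h := by
    rw [← map_pow, hh.al, AlgHom.commutes]
  have hvh : v h = 1 := hh.hu v hv hvj
  have hnh : nm v (algebraMap K (Kvs v) h) = 1 := by rw [hnK, hvh]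
  have hαn : ι α ∈ Knr p v := by
    refine n8 (algebraMap K (Kvs v) h) (ι α) (p - 1) ?_ hnh hpd hal
    rw [IsScalarTower.algebraMap_apply K v.Completion (Kvs v)]
    exact (Knr p v).algebraMap_mem _
  have hnpow : ∀ (x : Kvs v) (n : ℕ), nm v (x ^ n) = nm v x ^ n := by
    intro x n
    induction n with
    | zero =>
      rw [pow_zero, pow_zero]
      have := hm 1 1
      rw [mul_one] at this
      have hne : nm v 1 ≠ 0 := fun h => one_ne_zero ((hz _).1 h)
      exact (mul_left_cancel₀ hne (by rw [mul_one]; exact this)).symm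
    | succ n ih => rw [pow_succ, hm, ih, pow_succ]
  have hnα : nm v (ι α) = 1 := by
    have h1 : nm v (ι α) ^ (p - 1) = 1 := by rw [← hnpow, hal, hnh]
    exact (pow_eq_one_iff_of_nonneg (h0 _) hp1).1 h1
  -- integral elements have norm at most one
  have key : ∀ m : Kgs K, IsIntegral (OS av) m → nm v (ι m) ≤ 1 := by
    intro m hm'
    have hAV : ∀ x : OS av, algebraMap K (Kvs v) (x : K) ∈ V := by
      intro x
      rw [hmem, hnK]
      exact x.2 v hv hL.na hvj
    let φ : OS av →+* V :=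
      ((algebraMap K (Kvs v)).comp (OS av).subtype).codRestrict V.toSubring hAV
    have h1 := IsIntegral.map_of_comp_eq φ (ι : Kgs K →+* Kvs v) (by
      refine RingHom.ext fun x => ?_
      change algebraMap K (Kvs v) (x : K) = ι (algebraMap (OS av) (Kgs K) x)
      rw [IsScalarTower.algebraMap_apply (OS av) K (Kgs K), AlgHom.commutes]
      rfl) hm'
    obtain ⟨y, hy⟩ := (IsIntegrallyClosed.isIntegral_iff (R := V) (K := Kvs v)).1 h1
    have : (ι m : Kvs v) ∈ V := by
      rw [show ι m = (y : Kvs v) from hy.symm]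
      exact y.2
    exact this
  -- the towers are mapped to Knr
  have tow : ∀ M, Twr p (OS av) K (Kgs K) α M → ∀ x ∈ M, ι x ∈ Knr p v := by
    intro M hM
    let E : IntermediateField K (Kgs K) := ((Knr p v).restrictScalars K).comap ι
    have hE : ∀ x, x ∈ E ↔ ι x ∈ Knr p v := fun x => Iff.rfl
    have : M ≤ E := by
      induction hM with
      | bot =>
        rw [IntermediateField.adjoin_simple_le_iff, hE]
        exact hαn
      | step M θ hM hint hmem' ih =>
        refine sup_le ih ?_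
        rw [IntermediateField.adjoin_simple_le_iff, hE]
        have h1 : ι (θ ^ p - θ) ∈ Knr p v := (hE _).1 (ih hmem')
        obtain ⟨θ', hθ', e⟩ := n3 _ h1 (key _ hint)
        rw [map_sub, map_pow] at e
        have h2 : (ι θ - θ') ^ p = ι θ - θ' := by
          rw [sub_pow_char]
          linear_combination -e
        have h3 : ι θ - θ' ∈ Cst p (Kvs v) := ⟨1, le_rfl, by rw [pow_one]; exact h2⟩
        have h4 : ι θ = θ' + (ι θ - θ') := by ring
        rw [h4]
        exact add_mem hθ' (n4 _ h3)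
    exact fun x hx' => (hE x).1 (this hx')
  have hOm : ∀ x ∈ OmS p av α, ι x ∈ Knr p v := by
    intro x hx'
    obtain ⟨M, hM, hxM⟩ := (tw2 x).1 hx'
    exact tow M hM x hxM
  refine ⟨hOm, hnα, ?_⟩
  intro g hg
  refine AlgEquiv.ext fun x => ?_
  have h1 := r3 g x
  rw [(n6 g).1 hg _ (hOm _ x.2)] at h1
  exact Subtype.ext (ι.injective h1.symm)

end Pool.Agent.MP72P
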