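import Pool.Agent.Lib.MP_72e2e6_nt.P3.G.Spec

/-!
# MP_72e2e6_nt, theorem T3p, part G: unramified characters factor through `GS`
-/

namespace Pool.Agent.MP72P

open IntermediateField

section ring

variable {p : ℕ} [hp : Fact p.Prime] {n : ℕ}

/-- The principal units of the last level. -/
private def psfE (p n : ℕ) (x : ZMod p) : ZMod (p ^ (n + 1)) :=
  1 + (p : ZMod (p ^ (n + 1))) ^ n * ((x.val : ℤ) : ZMod (p ^ (n + 1)))

/-- The reduction. -/
private def psfR (p n : ℕ) : ZMod (p ^ (n + 1)) →+* ZMod (p ^ n) :=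
  ZMod.castHom (pow_dvd_pow p (Nat.le_succ n)) (ZMod (p ^ n))

omit hp in
private theorem psf_pow : (p : ZMod (p ^ (n + 1))) ^ (n + 1) = 0 := by
  have h := ZMod.natCast_self (p ^ (n + 1))
  rw [Nat.cast_pow] at h
  exact h

private theorem psf_int {z z' : ℤ} (h : (z : ZMod p) = (z' : ZMod p)) :
    (p : ZMod (p ^ (n + 1))) ^ n * (z : ZMod (p ^ (n + 1))) =
      (p : ZMod (p ^ (n + 1))) ^ n * (z' : ZMod (p ^ (n + 1))) := by
  obtain ⟨k, hk⟩ := (ZMod.intCast_eq_intCast_iff_dvd_sub z z' p).1 h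
  have e : z' = z + p * k := by linarith
  rw [e]
  push_cast
  have h2 : (p : ZMod (p ^ (n + 1))) ^ n * (p : ZMod (p ^ (n + 1))) = 0 := by
    rw [← pow_succ]
    exact psf_pow
  linear_combination (-(k : ZMod (p ^ (n + 1)))) * h2

private theorem psf_val (x : ZMod p) : (((x.val : ℕ) : ℤ) : ZMod p) = x := by
  rw [Int.cast_natCast, ZMod.natCast_zmod_val]

private theorem psfE_add (hn : 1 ≤ n) (x y : ZMod p) :
    psfE p n (x + y) = psfE p n x * psfE p n y := by
  unfold psfE
  have h1 : (p : ZMod (p ^ (n + 1))) ^ n * (((x + y).val : ℤ) : ZMod (p ^ (n + 1))) =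
      (p : ZMod (p ^ (n + 1))) ^ n * (((x.val : ℤ) + (y.val : ℤ) : ℤ) : ZMod (p ^ (n + 1))) := by
    apply psf_int
    rw [psf_val, Int.cast_add, psf_val, psf_val]
  have h2 : (p : ZMod (p ^ (n + 1))) ^ n * (p : ZMod (p ^ (n + 1))) ^ n = 0 := by
    have e : n + n = (n + 1) + (n - 1) := by omega
    rw [← pow_add, e, pow_add _ (n + 1), psf_pow, zero_mul]
  rw [h1]
  push_cast
  linear_combination (-((x.val : ZMod (p ^ (n + 1))) * (y.val : ZMod (p ^ (n + 1))))) * h2

private theorem psfE_zero : psfE p n 0 = 1 := by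
  unfold psfE
  rw [ZMod.val_zero]
  simp

private theorem psfE_inj {x y : ZMod p} (h : psfE p n x = psfE p n y) : x = y := by
  unfold psfE at h
  have h1 := add_left_cancel h
  have h2 : ((p ^ n * x.val : ℕ) : ZMod (p ^ (n + 1))) = ((p ^ n * y.val : ℕ) : ZMod (p ^ (n + 1))) := by
    push_cast
    rw [Int.cast_natCast, Int.cast_natCast] at h1
    exact h1
  have h3 := (ZMod.natCast_eq_natCast_iff _ _ _).1 h2
  rw [pow_succ] at h3
  have h4 : x.val ≡ y.val [MOD p] :=
    Nat.ModEq.mul_left_cancel' (pow_ne_zero n hp.out.ne_zero) h3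
  have h5 := (ZMod.natCast_eq_natCast_iff _ _ _).2 h4
  rwa [ZMod.natCast_zmod_val, ZMod.natCast_zmod_val] at h5

omit hp in
private theorem psfR_E (x : ZMod p) : psfR p n (psfE p n x) = 1 := by
  unfold psfE
  rw [map_add, map_one, map_mul, map_pow, map_natCast]
  have h : ((p : ZMod (p ^ n))) ^ n = 0 := by
    have h := ZMod.natCast_self (p ^ n)
    rw [Nat.cast_pow] at h
    exact h
  rw [h, zero_mul, add_zero]

private theorem psf_ex {r : ZMod (p ^ (n + 1))} (h : psfR p n r = 1) :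
    ∃ x : ZMod p, r = psfE p n x := by
  obtain ⟨k, rfl⟩ := ZMod.intCast_surjective r
  rw [map_intCast] at h
  have h1 : (((1 : ℤ)) : ZMod (p ^ n)) = (k : ZMod (p ^ n)) := by
    rw [h, Int.cast_one]
  obtain ⟨z, hz⟩ := (ZMod.intCast_eq_intCast_iff_dvd_sub 1 k (p ^ n)).1 h1
  refine ⟨(z : ZMod p), ?_⟩
  unfold psfE
  have h2 : (p : ZMod (p ^ (n + 1))) ^ n * ((((z : ZMod p)).val : ℤ) : ZMod (p ^ (n + 1))) =
      (p : ZMod (p ^ (n + 1))) ^ n * (z : ZMod (p ^ (n + 1))) := psf_int (psf_val _)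
  rw [h2]
  have h3 : k = 1 + (p : ℤ) ^ n * z := by
    push_cast at hz
    linarith
  rw [h3]
  push_cast
  ring

open Classical in
/-- The logarithm of the quotient. -/
private noncomputable def psfD (p n : ℕ) (r s : ZMod (p ^ (n + 1))) : ZMod p :=
  if h : ∃ x, r = s * psfE p n x then h.choose else 0

private theorem psfD_spec {r s : ZMod (p ^ (n + 1))} (h : psfR p n r = psfR p n s)
    (hs : IsUnit s) : r = s * psfE p n (psfD p n r s) := by
  have h1 : ∃ x, r = s * psfE p n x := by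
    obtain ⟨u, hu⟩ := hs
    have h2 : psfR p n (r * (u⁻¹ : (ZMod (p ^ (n + 1)))ˣ)) = 1 := by
      rw [map_mul, h, ← map_mul, ← hu, Units.mul_inv, map_one]
    obtain ⟨x, hx⟩ := psf_ex h2
    refine ⟨x, ?_⟩
    rw [← hx, ← hu]
    rw [mul_comm r, ← mul_assoc, Units.mul_inv, one_mul]
  unfold psfD
  rw [dif_pos h1]
  exact h1.choose_spec

/-- A lift. -/
private def psfL (p n : ℕ) (x : ZMod (p ^ n)) : ZMod (p ^ (n + 1)) := ((x.val : ℕ) : ZMod (p ^ (n + 1)))

private theorem psfR_L (x : ZMod (p ^ n)) : psfR p n (psfL p n x) = x := by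
  have : NeZero (p ^ n) := ⟨pow_ne_zero n hp.out.ne_zero⟩
  unfold psfL
  rw [map_natCast, ZMod.natCast_zmod_val]

private theorem psfL_unit (hn : 1 ≤ n) {x : ZMod (p ^ n)} (hx : IsUnit x) : IsUnit (psfL p n x) := by
  have : NeZero (p ^ n) := ⟨pow_ne_zero n hp.out.ne_zero⟩
  unfold psfL
  rw [ZMod.isUnit_iff_coprime]
  have h1 : IsUnit ((x.val : ℕ) : ZMod (p ^ n)) := by
    rw [ZMod.natCast_zmod_val]
    exact hx
  rw [ZMod.isUnit_iff_coprime] at h1
  have h2 : x.val.Coprime p := (Nat.coprime_pow_right_iff (by omega) _ _).1 h1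
  exact Nat.Coprime.pow_right _ h2

end ring

section step

variable {p : ℕ} [hp : Fact p.Prime] {n : ℕ} {G Γ : Type} [Group G] [TopologicalSpace G] [Group Γ]
  [TopologicalSpace Γ]

omit [TopologicalSpace G] in
private theorem psf_unit {R : Type} [CommRing R] {χ : G → R} (h1 : χ 1 = 1)
    (hm : ∀ a b, χ (a * b) = χ a * χ b) (a : G) : IsUnit (χ a) := by
  refine IsUnit.of_mul_eq_one (χ a⁻¹) ?_
  rw [← hm, mul_inv_cancel, h1]

/-- The lift of a character, and the comparison with a given lift. -/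
private theorem psf_step (hn : 1 ≤ n) (hH : H2Z p (fun _ : G => (1 : ZMod p))) (r : Γ →* G)
    (hr : Continuous r) (ψ : Γ → ZMod (p ^ (n + 1))) (hψl : IsLocallyConstant ψ)
    (hψm : ∀ σ τ, ψ (σ * τ) = ψ σ * ψ τ) (χ : G → ZMod (p ^ n)) (hχl : IsLocallyConstant χ)
    (hχ1 : χ 1 = 1) (hχm : ∀ a b, χ (a * b) = χ a * χ b)
    (hψχ : ∀ σ, psfR p n (ψ σ) = χ (r σ)) :
    ∃ (s : G → ZMod (p ^ (n + 1))) (η : Γ → ZMod p), IsLocallyConstant s ∧ s 1 = 1 ∧
      (∀ a b, s (a * b) = s a * s b) ∧ HomP p η ∧ ∀ σ, ψ σ = s (r σ) * psfE p n (η σ) := by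
  have hu : ∀ a, IsUnit (χ a) := psf_unit hχ1 hχm
  have hLu : ∀ a, IsUnit (psfL p n (χ a)) := fun a => psfL_unit hn (hu a)
  let F : ZMod (p ^ n) → ZMod (p ^ n) → ZMod p := fun x y =>
    psfD p n (psfL p n x * psfL p n y) (psfL p n (x * y))
  have hF : ∀ a b, psfL p n (χ a) * psfL p n (χ b) =
      psfL p n (χ (a * b)) * psfE p n (F (χ a) (χ b)) := by
    intro a b
    rw [hχm]
    refine psfD_spec ?_ ?_
    · rw [map_mul, psfR_L, psfR_L, psfR_L]
    · rw [← hχm]
      exact hLu _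
  have hκl : IsLocallyConstant fun q : G × G => F (χ q.1) (χ q.2) :=
    (hχl.comp_continuous continuous_fst).comp₂ (hχl.comp_continuous continuous_snd) F
  have hcoc : ∀ a b d, (1 : ZMod p) * F (χ b) (χ d) - F (χ (a * b)) (χ d) + F (χ a) (χ (b * d)) -
      F (χ a) (χ b) = 0 := by
    intro a b d
    have h1 : F (χ (a * b)) (χ d) + F (χ a) (χ b) = F (χ a) (χ (b * d)) + F (χ b) (χ d) := by
      apply psfE_inj (n := n)
      rw [psfE_add hn, psfE_add hn]
      have e1 := hF a b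
      have e2 := hF (a * b) d
      have e3 := hF b d
      have e4 := hF a (b * d)
      rw [← mul_assoc] at e4
      apply (hLu (a * b * d)).mul_left_cancel
      rw [← mul_assoc, ← mul_assoc, ← e2, ← e4]
      linear_combination (psfL p n (χ d)) * (-e1) + (psfL p n (χ a)) * e3
    linear_combination -h1
  obtain ⟨β, hβl, hβ⟩ := hH (fun a b => F (χ a) (χ b)) hκl hcoc
  obtain ⟨s, hs⟩ : ∃ s : G → ZMod (p ^ (n + 1)), s = fun a => psfL p n (χ a) * psfE p n (-β a) :=
    ⟨_, rfl⟩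
  have hsa : ∀ a, s a = psfL p n (χ a) * psfE p n (-β a) := fun a => by rw [hs]
  have hsl : IsLocallyConstant s := by
    rw [hs]
    exact hχl.comp₂ hβl fun x y => psfL p n x * psfE p n (-y)
  have hsm : ∀ a b, s (a * b) = s a * s b := by
    intro a b
    have h1 : psfE p n (-β (a * b)) = psfE p n (F (χ a) (χ b)) * (psfE p n (-β a) * psfE p n (-β b)) := by
      rw [← psfE_add hn, ← psfE_add hn]
      congr 1
      have h2 : F (χ a) (χ b) = β a + 1 * β b - β (a * b) := hβ a b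
      rw [h2]
      ring
    rw [hsa, hsa, hsa, h1]
    linear_combination (-(psfE p n (-β a) * psfE p n (-β b))) * hF a b
  have hsR : ∀ a, psfR p n (s a) = χ a := by
    intro a
    rw [hsa, map_mul, psfR_L, psfR_E, mul_one]
  have hsu0 : ∀ a, IsUnit (s a) := by
    intro a
    rw [hsa]
    refine (hLu a).mul ?_
    refine IsUnit.of_mul_eq_one (psfE p n (β a)) ?_
    rw [← psfE_add hn, neg_add_cancel, psfE_zero]
  have hs1 : s 1 = 1 := by
    have h1 := hsm 1 1
    rw [mul_one] at h1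
    have h2 := (hsu0 1).mul_left_cancel ((mul_one (s 1)).trans h1)
    exact h2.symm
  have hη : ∀ σ, ψ σ = s (r σ) * psfE p n (psfD p n (ψ σ) (s (r σ))) := by
    intro σ
    refine psfD_spec ?_ (hsu0 _)
    rw [hψχ, hsR]
  refine ⟨s, fun σ => psfD p n (ψ σ) (s (r σ)), hsl, hs1, hsm, ⟨?_, ?_⟩, hη⟩
  · exact hψl.comp₂ (hsl.comp_continuous hr) (psfD p n)
  · intro σ τ
    apply psfE_inj (n := n)
    rw [psfE_add hn]
    apply (hsu0 (r (σ * τ))).mul_left_cancel
    rw [← hη, hψm, map_mul, hsm]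
    nth_rewrite 1 [hη σ]
    nth_rewrite 1 [hη τ]
    ring

end step

theorem tPsf : S_Hst → S_Rgo → S_Onr → S_Nrg → S_Psf := by
  intro hHst hRgo hOnr hNrg p hp K _ _ hK J av α h hH
  obtain ⟨-, -, -, -, -, -, hCh, -, -, -, -, hH2, -, hhom, -, -⟩ := hHst p K hK J av α h hH
  obtain ⟨hrc, hrs, -, hro, -, -, hrv⟩ := hRgo p K hK J av α h hH
  have hon := hOnr p K hK J av α h hH
  have hnr := (hNrg p K hK J av α h hH).2
  intro n
  induction n with
  | zero =>
    intro ψ _ _ _ _ _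
    have hsub : Subsingleton (ZMod (p ^ 0)) := by
      rw [pow_zero]
      infer_instance
    exact ⟨fun _ => 1, IsLocallyConstant.const 1, rfl, fun a b => Subsingleton.elim _ _,
      fun a => ⟨0, Subsingleton.elim _ _⟩, fun σ => Subsingleton.elim _ _⟩
  | succ n ih =>
    intro ψ hψl hψ1 hψm hψω hψu
    rcases Nat.eq_zero_or_pos n with rfl | hn
    · -- level one
      have hp1 : (p : ZMod (p ^ (0 + 1))) = 0 := by
        exact (pow_one (p : ZMod (p ^ (0 + 1)))).symm.trans (psf_pow (p := p) (n := 0))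
      let e : ZMod p ≃+* ZMod (p ^ (0 + 1)) :=
        ZMod.ringEquivCongr (by rw [zero_add, pow_one])
      have he : ∀ x : ZMod p, ((x.val : ℕ) : ZMod (p ^ (0 + 1))) = e x := by
        intro x
        rw [← map_natCast e, ZMod.natCast_zmod_val]
      refine ⟨fun g => ((omS p av α g).val : ZMod (p ^ (0 + 1))), ?_, ?_, ?_, ?_, ?_⟩
      · exact hCh.loc.comp fun x : ZMod p => ((x.val : ℕ) : ZMod (p ^ (0 + 1)))
      · beta_reduce
        rw [he, hCh.one, map_one]
      · intro a b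
        beta_reduce
        rw [he, he, he, hCh.mul, map_mul]
      · intro a
        exact ⟨0, by rw [mul_zero, add_zero]⟩
      · intro σ
        obtain ⟨y, hy⟩ := hψω σ
        beta_reduce
        rw [hy, hp1, zero_mul, add_zero, hro]
    · -- the step
      have hn1 : 1 ≤ n := hn
      obtain ⟨χ, hχl, hχ1, hχm, hχω, hχ⟩ := ih (fun σ => psfR p n (ψ σ)) (hψl.comp _)
        (by rw [hψ1, map_one]) (fun σ τ => by rw [hψm, map_mul])
        (fun σ => by
          obtain ⟨y, hy⟩ := hψω σ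
          exact ⟨psfR p n y, by rw [hy, map_add, map_mul, map_natCast, map_natCast]⟩)
        (fun v hv1 hv2 => by
          obtain ⟨ι, hι⟩ := hψu v hv1 hv2
          refine ⟨ι, fun g hg => ?_⟩
          have h1 := hι g hg
          beta_reduce at h1 ⊢
          rw [sub_eq_zero] at h1
          rw [h1, map_one, sub_self])
      obtain ⟨s, η, hsl, hs1, hsm, hη, hψs⟩ := psf_step hn1 hH2 (rG p av α) hrc ψ hψl hψm χ hχl
        hχ1 hχm hχ
      have hηu : Unr p av η := by
        intro v hv1 hv2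
        obtain ⟨ι, hι⟩ := hψu v hv1 hv2
        refine ⟨ι, fun g hg => ?_⟩
        have h1 := hι g hg
        beta_reduce at h1
        rw [sub_eq_zero, hψs, ← (hrv v ι).2.1 g, (hon v hv1 hv2 ι).2.2 g hg, hs1, one_mul] at h1
        apply psfE_inj (n := n)
        rw [h1, psfE_zero]
      obtain ⟨f, hf, -, hfη⟩ := hnr η hη hηu
      have hh := hhom f hf
      refine ⟨fun g => s g * psfE p n (hS p av α f g), hsl.comp₂ hh.loc fun x y => x * psfE p n y,
        ?_, fun a b => ?_, fun a => ?_, fun σ => ?_⟩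
      · have h1 : hS p av α f 1 = 0 := by
          have h2 := hh.add 1 1
          rw [mul_one] at h2
          exact left_eq_add.1 h2
        beta_reduce
        rw [hs1, h1, psfE_zero, one_mul]
      · beta_reduce
        rw [hsm, hh.add, psfE_add hn1]
        ring
      · obtain ⟨σ, rfl⟩ := hrs a
        obtain ⟨y, hy⟩ := hψω σ
        refine ⟨y, ?_⟩
        beta_reduce
        rw [← hfη, ← hψs, hy, hro]
      · beta_reduce
        rw [hψs, hfη]

end Pool.Agent.MP72P
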