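import Pool.Agent.Lib.MP_72e2e6_nt.P3.G.Spec

/-!
# MP_72e2e6_nt, theorem T3p, part G: restriction homomorphisms
-/

set_option autoImplicit false

namespace Pool.Agent.MP72P

open IntermediateField

theorem tRgo : S_Has → S_Res → S_Hst → S_Rgo := by
  intro hHas hRes hHst p _ K _ _ hK J av α h hh
  obtain ⟨-, -, hgal, hα0, haloc, halop, -, -, -, hr1, hr2, -, -, -, -, -⟩ :=
    hHst p K hK J av α h hh
  have halo0 : alo p av α ≠ 0 := by
    intro h0
    apply hα0
    rw [← haloc, h0]
    rfl
  have hone : (1 : OmS p av α) ^ (p - 1) = algebraMap K (OmS p av α) 1 := by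
    rw [one_pow, map_one]
  obtain ⟨c1, c2, c3, c4⟩ := hRes p K (OmS p av α) K (Kgs K) (OmS p av α).val
  have hom1 : ∀ g : Gal(Kgs K/K), omc p (1 : Kgs K) g = 1 :=
    (hHas p K (Kgs K) 1 1 one_ne_zero (by rw [one_pow, map_one])).2.2.2.2.2
  have hrG : ∀ (σ : Gal(Kgs K/K)) (x : OmS p av α),
      σ (x : Kgs K) = ((rG p av α σ x : OmS p av α) : Kgs K) := fun σ x => c2 σ x
  refine ⟨c1, ?_, hrG, ?_, ?_, ?_, ?_⟩
  · intro τ
    obtain ⟨σ, hσ⟩ := AlgEquiv.restrictNormalHom_surjective (F := K) (K₁ := OmS p av α)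
      (E := Kgs K) τ
    refine ⟨σ, ?_⟩
    have h1 : Rst (OmS p av α).val (σ : Kgs K → Kgs K) τ := by
      intro x
      rw [← hσ]
      exact (AlgEquiv.restrictNormal_commutes σ (OmS p av α) x).symm
    exact (c3 σ τ h1).symm
  · intro σ
    have h1 := (c4 (alo p av α) h halo0 halop).1 σ
    have h2 : (OmS p av α).val (alo p av α) = α := haloc
    rw [h2] at h1
    exact h1
  · intro f hf σ
    obtain ⟨c, hc⟩ := (c4 1 1 one_ne_zero hone).2 f (by
      rw [one_pow]
      exact hr2 f hf)
    have h1 := hc σ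
    rw [map_one, hom1, one_mul, sub_self, add_zero] at h1
    exact h1
  · intro f hf
    obtain ⟨c, hc⟩ := (c4 (alo p av α) h halo0 halop).2 f (hr1 f hf)
    refine ⟨c, fun σ => ?_⟩
    have h1 := hc σ
    have h2 : (OmS p av α).val (alo p av α) = α := haloc
    rw [h2] at h1
    exact h1
  · intro v ι
    have hchp : CharP v.Completion p :=
      charP_of_injective_algebraMap (algebraMap K v.Completion).injective p
    obtain ⟨d1, d2, d3, d4⟩ := hRes p K (OmS p av α) v.Completion (Kvs v)
      (ι.comp (OmS p av α).val)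
    obtain ⟨e1, e2, -, -⟩ := hRes p K (Kgs K) v.Completion (Kvs v) ι
    have hom2 : ∀ g : Gal(Kvs v/v.Completion), omc p (1 : Kvs v) g = 1 :=
      (hHas p v.Completion (Kvs v) 1 1 one_ne_zero (by rw [one_pow, map_one])).2.2.2.2.2
    have h2 : (ι.comp (OmS p av α).val) (alo p av α) = ι α := congrArg ι haloc
    refine ⟨d1, ?_, fun g x => d2 g x, ?_, ?_, ?_⟩
    · intro g
      refine (d3 g _ fun x => ?_).symm
      have h3 := e2 g (x : Kgs K)
      rw [hrG] at h3
      exact h3
    · intro g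
      have h1 := (d4 (alo p av α) h halo0 halop).1 g
      rw [h2] at h1
      exact h1
    · intro f hf g
      obtain ⟨c, hc⟩ := (d4 1 1 one_ne_zero hone).2 f (by
        rw [one_pow]
        exact hr2 f hf)
      have h1 := hc g
      rw [map_one, hom2, one_mul, sub_self, add_zero] at h1
      exact h1
    · intro f hf
      obtain ⟨c, hc⟩ := (d4 (alo p av α) h halo0 halop).2 f (hr1 f hf)
      refine ⟨c, fun g => ?_⟩
      have h1 := hc g
      rw [h2] at h1
      exact h1

end Pool.Agent.MP72P
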