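import Pool.Agent.Lib.MP_72e2e6_nt.P3.Defs
import Pool.Agent.Lib.MP_72e2e6_nt.P3.A2.Defs

/-!
# MP_72e2e6_nt, theorem T3p, part G: the Galois group `G_S`

`K` is a global function field, `av : J → AbsoluteValue K ℝ` a finite family of places,
`α ∈ K^s`, `α ^ (p - 1) = h ∈ K` a unit outside the places `av j`.
-/

namespace Pool.Agent.MP72P

open IntermediateField

section

variable (p : ℕ) {K : Type} [Field K] {J : Type} (av : J → AbsoluteValue K ℝ) (α : Kgs K)

/-- The field `Om` for the ring of the functions regular outside the places `av j`. -/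
noncomputable abbrev OmS : IntermediateField K (Kgs K) := Om p (OS av) K (Kgs K) α

/-- Its Galois group. -/
abbrev GS : Type := Gal((OmS p av α)/K)

/-- The restriction homomorphism from the absolute Galois group. -/
noncomputable def rG : Gal(Kgs K/K) →* GS p av α := rsH (OmS p av α).val

/-- The restriction homomorphism from the Galois group of a completion. -/
noncomputable def rOm {v : AbsoluteValue K ℝ} (ι : Kgs K →ₐ[K] Kvs v) :
    Gal(Kvs v/v.Completion) →* GS p av α := rsH (ι.comp (OmS p av α).val)

open Classical in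
/-- `α` as an element of `OmS`. -/
noncomputable def alo : OmS p av α := if h : α ∈ OmS p av α then ⟨α, h⟩ else 1

/-- The character `ω` on `GS`. -/
noncomputable def omS (g : GS p av α) : ZMod p := omc p (K := K) (alo p av α) g

/-- The Artin-Schreier homomorphism of `D` on `GS`. -/
noncomputable def hS (D : K) (g : GS p av α) : ZMod p := hP p (1 : OmS p av α) D g

/-- The images of the local Galois groups. -/
noncomputable def DS (ι : ∀ j, Kgs K →ₐ[K] Kvs (av j)) (j : J) : Subgroup (GS p av α) :=
  (rOm p av α (ι j)).range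

/-- The functions with values at most `2 ^ e` at the places. -/
def FS (av : J → AbsoluteValue K ℝ) (e : ℕ) : AddSubgroup (OS av) where
  carrier := {x | ∀ j, IsNonarchimedean (av j) → av j x ≤ 2 ^ e}
  add_mem' := fun {a b} ha hb j hj => (hj (a : K) b).trans (max_le (ha j hj) (hb j hj))
  zero_mem' := fun j _ => by
    have h : ((0 : OS av) : K) = 0 := rfl
    rw [h, map_zero]
    positivity
  neg_mem' := fun {a} ha j hj => by
    have h : ((-a : OS av) : K) = -(a : K) := rfl
    rw [h, AbsoluteValue.map_neg]
    exact ha j hj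

/-- The data of part A2 for `GS`; `B` is the subgroup of the directions. -/
noncomputable def fmS (ι : ∀ j, Kgs K →ₐ[K] Kvs (av j)) (B : AddSubgroup (OS av)) :
    Fm p (GS p av α) J (OS av) where
  ω := omS p av α
  D := DS p av α ι
  h := fun x => hS p av α (x : K)
  F := FS av
  B := B

end

/-- The general hypotheses: a finite family of places, `α ^ (p - 1) = h` is a unit outside of it. -/
structure HS (p : ℕ) {K : Type} [Field K] {J : Type} (av : J → AbsoluteValue K ℝ) (α : Kgs K)
    (h : K) : Prop where
  fin : Finite J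
  nem : Nonempty J
  pls : Pls av
  al : α ^ (p - 1) = algebraMap K (Kgs K) h
  h0 : h ≠ 0
  hu : ∀ v : AbsoluteValue K ℝ, v.IsNontrivial → (∀ j, ¬ v.IsEquiv (av j)) → v h = 1

/-- `H` vanishes on the geometric elements of the local Galois groups outside the `av j`. -/
def Unr (p : ℕ) {K M : Type} [Field K] [Zero M] {J : Type} (av : J → AbsoluteValue K ℝ)
    (H : Gal(Kgs K/K) → M) : Prop :=
  ∀ v : AbsoluteValue K ℝ, v.IsNontrivial → (∀ j, ¬ v.IsEquiv (av j)) →
    ∃ ι : Kgs K →ₐ[K] Kvs v, ∀ g : Gal(Kvs v/v.Completion), IsGeo p g →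
      H (rsH (M := v.Completion) ι g) = 0

end Pool.Agent.MP72P
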