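import Pool.Agent.Lib.MP_72e2e6_nt.P3.G.Defs
import Pool.Agent.Lib.MP_72e2e6_nt.P3.N.Spec
import Pool.Agent.Lib.MP_72e2e6_nt.P3.A.Spec
import Pool.Agent.Lib.MP_72e2e6_nt.P3.B.Spec
import Pool.Agent.Lib.MP_72e2e6_nt.P3.C.Spec

/-!
# MP_72e2e6_nt, theorem T3p, part G: the Galois group `G_S`

The proofs are complete in the docstrings; every module is independent (used statements are
hypotheses): file `P3/G/<Name>.lean` (import this file only) with `theorem t<Name> : S_<Name>` or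
`theorem t<Name> (h1 : S_X) (h2 : S_Y) .. : S_<Name>` (in the order of the docstring), namespace
`Pool.Agent.MP72P`, other declarations `private`. `A = OS av`, `P_h(x) = x ^ p - h x` (additive in
characteristic `p`). An element `g` of a local Galois group is geometric if `IsGeo p g`.
-/

namespace Pool.Agent.MP72P

open IntermediateField

/-- **Omi1** (200 lines, uses `S_Ah`, `S_Has`, `S_Twb`, `S_Twt`). The untwisted version of `S_Omi` for the
same field `Om`.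

Proof. As `S_Omi` (see `P3/B/Omi.lean`): let `O` be the integral closure of `A` in `Om`; it is an `ASMod` for
`ω = 1`, `α = 1` (`ω g = 1` for all `g`): `as`: for `m ∈ O` a root `y ∈ Ks` of `y ^ p - y = m` lies in `Om` by
`S_Twb` (6) and is integral; `dom`: the roots of `x ^ p = x` are the elements of the prime field; `tr`, `stab`,
`chp`, `one` as in `P3/B/Omi.lean`. So `S_Ah` gives `H2Z` and, for a homomorphism `H`, an element `θ ∈ O` with
`g θ = θ + H g`; `f = θ ^ p - θ` is fixed by the Galois group and integral, so in `A`; by `S_Has` (2) for `1 ∈ Om`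
(`omc p 1 = 1`) `H = hP p 1 f`. -/
def S_Omi1 : Prop :=
  ∀ (p : ℕ) [Fact p.Prime] (A K Ks : Type) [CommRing A] [Field K] [Algebra A K]
    [IsFractionRing A K] [IsIntegrallyClosed A] [Field Ks] [Algebra K Ks] [Algebra A Ks]
    [IsScalarTower A K Ks] [CharP K p] [IsGalois K Ks] [IsSepClosed Ks] (α : Ks) (h : A),
    IsUnit h → α ^ (p - 1) = algebraMap A Ks h →
    H2Z p (fun _ : Gal((Om p A K Ks α)/K) => (1 : ZMod p)) ∧
    ∀ H : Gal((Om p A K Ks α)/K) → ZMod p, HomP p H →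
      ∃ f : A, ∀ g, H g = hP p (1 : Om p A K Ks α) (algebraMap A K f) g

/-- **Hst** (200 lines, uses `S_Frc`, `S_Has`, `S_Twb`, `S_Omi`, `S_Omi1`). The group `GS`.

Proof. `(OS av)` has the fraction field `K` and is integrally closed (`S_Frc`). `h`, `h⁻¹ ∈ OS av`
(`v h = 1` outside the places `av j`). `α ≠ 0` as `h ≠ 0` (`p - 1 ≥ 1`). `α ∈ OmS` (`S_Twb` (7)), so `alo` is `α`.
`S_Omi`, `S_Omi1` for `A = OS av`, `Ks = Kgs K` (the Galois group of an algebraic extension is compact).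
The last three statements: `S_Has` for `1 ∈ OmS` (`omc p 1 = 1`, so the coboundaries are `0`; the roots
exist by `S_Omi`). -/
def S_Hst : Prop :=
  ∀ (p : ℕ) [Fact p.Prime] (K : Type) [Field K] [CharP K p], GFld p K →
    ∀ (J : Type) (av : J → AbsoluteValue K ℝ) (α : Kgs K) (h : K), HS p av α h →
    IsFractionRing (OS av) K ∧ IsIntegrallyClosed (OS av) ∧ IsGalois K (OmS p av α) ∧ α ≠ 0 ∧
    ((alo p av α : OmS p av α) : Kgs K) = α ∧
    alo p av α ^ (p - 1) = algebraMap K (OmS p av α) h ∧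
    ChO p (omS p av α) ∧ H2Z p (omS p av α) ∧
    (∀ H : GS p av α → ZMod p, Coc (fun g (x : ZMod p) => omS p av α g * x) H →
      ∃ f ∈ OS av, ∃ c : ZMod p, ∀ g, H g = hP p (alo p av α) f g + (c - omS p av α g * c)) ∧
    (∀ f ∈ OS av, ∃ x : OmS p av α, Ph p (alo p av α ^ (p - 1)) x = algebraMap K _ f) ∧
    (∀ f ∈ OS av, ∃ x : OmS p av α, Ph p 1 x = algebraMap K _ f) ∧
    H2Z p (fun _ : GS p av α => (1 : ZMod p)) ∧
    (∀ H : GS p av α → ZMod p, HomP p H → ∃ f ∈ OS av, ∀ g, H g = hS p av α f g) ∧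
    (∀ f ∈ OS av, HomP p (hS p av α f)) ∧
    (∀ f ∈ OS av, ∀ f' ∈ OS av, ∀ g, hS p av α (f + f') g = hS p av α f g + hS p av α f' g) ∧
    ∀ f ∈ OS av, (∀ g, hS p av α f g = 0) ↔ ∃ x : K, x ^ p - x = f

/-- **Rgo** (200 lines, uses `S_Has`, `S_Res`, `S_Hst`). The restriction homomorphisms.

Proof. `S_Res` for `Ω = OmS`, `M = K`, `L = Kgs K` and for `M = v.Completion`, `L = Kvs v`, and for the embedding
`ι : Kgs K → Kvs v`; the equality `rOm ι g = rG (rsH ι g)` by uniqueness (`S_Res` (3)). Surjective: `OmS / K` is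
normal (`AlgEquiv.restrictNormalHom_surjective` and uniqueness, or lift of embeddings). The formulas for
`hS`: `S_Res` (4) for `α = 1` (`omc p 1 = 1`, so the coboundary is `0`). -/
def S_Rgo : Prop :=
  ∀ (p : ℕ) [Fact p.Prime] (K : Type) [Field K] [CharP K p], GFld p K →
    ∀ (J : Type) (av : J → AbsoluteValue K ℝ) (α : Kgs K) (h : K), HS p av α h →
    Continuous (rG p av α) ∧ Function.Surjective (rG p av α) ∧
    (∀ (σ : Gal(Kgs K/K)) (x : OmS p av α), σ (x : Kgs K) = ((rG p av α σ x : OmS p av α) : Kgs K)) ∧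
    (∀ σ, omS p av α (rG p av α σ) = omc p α σ) ∧
    (∀ f ∈ OS av, ∀ σ, hS p av α f (rG p av α σ) = hP p (1 : Kgs K) f σ) ∧
    (∀ f ∈ OS av, ∃ c : ZMod p, ∀ σ,
      hP p (alo p av α) f (rG p av α σ) = hP p α f σ + (c - omc p α σ * c)) ∧
    ∀ (v : AbsoluteValue K ℝ) (ι : Kgs K →ₐ[K] Kvs v), Continuous (rOm p av α ι) ∧
      (∀ g, rOm p av α ι g = rG p av α (rsH (M := v.Completion) ι g)) ∧
      (∀ (g : Gal(Kvs v/v.Completion)) (x : OmS p av α), g (ι (x : Kgs K)) = ι ((rOm p av α ι g x :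
        OmS p av α) : Kgs K)) ∧
      (∀ g, omS p av α (rOm p av α ι g) = omc p (ι α) g) ∧
      (∀ f ∈ OS av, ∀ g, hS p av α f (rOm p av α ι g) =
        hP p (1 : Kvs v) (algebraMap K v.Completion f) g) ∧
      ∀ f ∈ OS av, ∃ c : ZMod p, ∀ g, hP p (alo p av α) f (rOm p av α ι g) =
        hP p (ι α) (algebraMap K v.Completion f) g + (c - omc p (ι α) g * c)

/-- **Onr** (200 lines, uses `S_Dsc`, `S_Lc1`, `S_Lc2`, `S_Cst`, `S_Nr`, `S_Twb`, `S_Hst`, `S_Rgo`). `OmS` is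
unramified outside the places `av j`.

Proof. Let `v` be not equivalent to an `av j`, of the type `LF` (`S_Dsc`). `v ≤ 1` on `OS av`, so `nm (ι x) ≤ 1` for
every `x` integral over `OS av`. (1) By induction on the tower `M` (`S_Twb` (2)) `ι x ∈ Knr p v` for `x ∈ M`:
`K⟮α⟯`: `(ι α) ^ (p - 1) = h`, `v h = 1`, so `ι α ∈ Knr p v` (`S_Nr` (8) with `m = p - 1`). Step `M ⊔ K⟮θ⟯`:
`m = θ ^ p - θ ∈ M` is integral over `OS av`, so `ι m ∈ Knr p v`, `nm (ι m) ≤ 1`, and there is `θ' ∈ Knr p v` with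
`θ' ^ p - θ' = ι m` (`S_Nr` (3)); `ι θ - θ'` is in the prime field, so `ι θ ∈ Knr p v`. (2) a geometric `g` fixes
`Knr p v` (`S_Nr` (6)), so `ι (rOm ι g x) = g (ι x) = ι x` for all `x ∈ OmS`. -/
def S_Onr : Prop :=
  ∀ (p : ℕ) [Fact p.Prime] (K : Type) [Field K] [CharP K p], GFld p K →
    ∀ (J : Type) (av : J → AbsoluteValue K ℝ) (α : Kgs K) (h : K), HS p av α h →
    ∀ v : AbsoluteValue K ℝ, v.IsNontrivial → (∀ j, ¬ v.IsEquiv (av j)) →
    ∀ ι : Kgs K →ₐ[K] Kvs v, (∀ x ∈ OmS p av α, ι x ∈ Knr p v) ∧ nm v (ι α) = 1 ∧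
      ∀ g : Gal(Kvs v/v.Completion), IsGeo p g → rOm p av α ι g = 1

/-- **Nrf** (350 lines, uses `S_Na`, `S_Dsc`, `S_Str`, `S_Alm`, `S_Lc1`, `S_Lc2`, `S_Nr`, `S_Has`, `S_Sep`, `S_Res`,
`S_Onr`). Crossed homomorphisms of the absolute Galois group which are unramified outside the `av j`.

Proof. By `S_Sep` `H = hP α f₀ + (c - ω c)`, `f₀ ∈ K`; if `f₀ = 0` we are done. (a) Let `v` be not equivalent to an
`av j`, `ι` as in `Unr`. For geometric `g` `ω (rsH ι g) = omc p (ι α) g = 1` (`ι α ∈ Knr p v`, `S_Onr`, `S_Nr` (6)), so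
`hP α f₀ (rsH ι g) = 0`, and by `S_Res` (4) `hP p (ι α) f₀ g = 0` (the coboundary vanishes at `g`). Let `x ∈ Kvs v` be
the root of `P_h(x) = f₀` with `g x = x + hP p (ι α) f₀ g * ι α` (`S_Has` (3)). `x` is fixed by the geometric
elements, so `x ∈ Knr p v` (`S_Nr` (6), `InfiniteGalois.fixedField_fixingSubgroup`), and `nm (g x - x) ≤ 1` for all `g`
(`nm (ι α) = 1`). By `S_Nr` (9) there is `y_v ∈ K_v` with `nm (x - y_v) ≤ 1`.
(b) Let `av₁` be as in `S_Alm` for `f₀`, `I₁` the set of the indices `i` such that `av₁ i` is not equivalent to an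
`av j`. The family `av' = av` together with the `av₁ i`, `i ∈ I₁`, is a `Pls` (on `J ⊕ I₁`). For `i ∈ I₁` choose
`t i ∈ K` with `‖y_(av₁ i) - t i‖ ≤ 1`. By `S_Str` (`j0 ∈ J`) there is `y ∈ OS av'` with `av₁ i (y - t i) < 1` for
`i ∈ I₁`. Let `f = f₀ - P_h(y)`. Then `f ∈ OS av`: let `v` be nontrivial and not equivalent to an `av j`. If `v` is
not equivalent to an `av₁ i` then `v f₀ = 1`, `v y ≤ 1`, `v h = 1`, so `v f ≤ 1`. If it is equivalent to
`u = av₁ i`, then `i ∈ I₁` and it suffices that `u f ≤ 1`: `f = P_h(x - y)` in `Kvs u`, and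
`nm (x - y) ≤ max (nm (x - y_u)) (‖y_u - t i‖) (u (t i - y)) ≤ 1`. (c) `f₀ = f + P_h(y)`, so `hP α f₀ - hP α f` is a
coboundary (`S_Has` (4), (5)). -/
def S_Nrf : Prop :=
  ∀ (p : ℕ) [Fact p.Prime] (K : Type) [Field K] [CharP K p], GFld p K →
    ∀ (J : Type) (av : J → AbsoluteValue K ℝ) (α : Kgs K) (h : K), HS p av α h →
    ∀ H : Gal(Kgs K/K) → ZMod p, Coc (fun σ (x : ZMod p) => omc p α σ * x) H → Unr p av H →
      ∃ f ∈ OS av, ∃ c : ZMod p, ∀ σ, H σ = hP p α f σ + (c - omc p α σ * c)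

/-- **Nrg** (120 lines, uses `S_Has`, `S_Hst`, `S_Rgo`, `S_Nrf`). The same in terms of `GS`.

Proof. (1) `f` as in `S_Nrf`; by `S_Rgo` `hP α f = hP alo f ∘ rG` up to a coboundary, and `ω = omS ∘ rG`; the function
`H' = hP alo f + (c' - omS c')` is a crossed homomorphism (`S_Has` (3), the root exists by `S_Hst`). (2)
`S_Nrf` for `α = 1`, `h = 1` (`HS p av 1 1`; `omc p 1 = 1`), and `S_Rgo` for `hS`. -/
def S_Nrg : Prop :=
  ∀ (p : ℕ) [Fact p.Prime] (K : Type) [Field K] [CharP K p], GFld p K →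
    ∀ (J : Type) (av : J → AbsoluteValue K ℝ) (α : Kgs K) (h : K), HS p av α h →
    (∀ H : Gal(Kgs K/K) → ZMod p, Coc (fun σ (x : ZMod p) => omc p α σ * x) H → Unr p av H →
      ∃ H' : GS p av α → ZMod p, Coc (fun g (x : ZMod p) => omS p av α g * x) H' ∧
        ∀ σ, H σ = H' (rG p av α σ)) ∧
    ∀ H : Gal(Kgs K/K) → ZMod p, HomP p H → Unr p av H →
      ∃ f ∈ OS av, (∀ σ, H σ = hP p (1 : Kgs K) f σ) ∧ ∀ σ, H σ = hS p av α f (rG p av α σ)

/-- **Fac** (250 lines, uses `S_Fix`, `S_Hst`, `S_Rgo`, `S_Onr`, `S_Nrg`). Unramified crossed homomorphisms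
with values in finite modules factor through `GS`.

Proof by strong induction on `Nat.card M` (for all `M`, `ρ`, `c`). If `M` is trivial, `c' = 0`. Otherwise let `m₁` be as in
`S_Fix` (for `GS`), `N = {c.val • m₁ | c ∈ ZMod p}`. By induction for `M ⧸ N` the reduction `c̄` is `c̄' ∘ rG`. As in the
proof of `S_Uni` (`P3/A/Uni.lean`) `c̄'` lifts to a crossed homomorphism `c'' : GS → M` for `ρ` (`H2Z` for `omS`,
`S_Hst`). The difference `c - c'' ∘ rG` has values in `N`, so it is `(H σ).val • m₁`, `H` a crossed homomorphism for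
`omS ∘ rG = omc p α` (locally constant since `c`, `c'' ∘ rG` are). `Unr p av H`: for a geometric `g`
`c (rsH ι g) = 0` and `c'' (rG (rsH ι g)) = c'' (rOm ι g) = c'' 1 = 0` (`S_Onr`, for every `ι`). By `S_Nrg`
`H = H' ∘ rG`; `c' = c'' + (H').val • m₁`. -/
def S_Fac : Prop :=
  ∀ (p : ℕ) [Fact p.Prime] (K : Type) [Field K] [CharP K p], GFld p K →
    ∀ (J : Type) (av : J → AbsoluteValue K ℝ) (α : Kgs K) (h : K), HS p av α h →
    ∀ (M : Type) [AddCommGroup M] [Finite M] (r : ℕ), Nat.card M = p ^ r →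
    ∀ ρ : GS p av α → M → M, ActP p (omS p av α) ρ →
    ∀ c : Gal(Kgs K/K) → M, Coc (fun σ => ρ (rG p av α σ)) c → Unr p av c →
      ∃ c' : GS p av α → M, Coc ρ c' ∧ ∀ σ, c σ = c' (rG p av α σ)

/-- **Psf** (300 lines, uses `S_Hst`, `S_Rgo`, `S_Onr`, `S_Nrg`). Unramified characters with values in
`ZMod (p ^ n)` which are congruent to `ω` factor through `GS`.

Proof by induction on `n`. `n = 0`: `ZMod 1` has one element. `n = 1`: `ψ σ = ((omc p α σ).val : ZMod p)`, take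
`ψ' g = ((omS g).val : ZMod (p ^ 1))`. Step from `n ≥ 1` to `n + 1`: let `ψ̄` be the reduction of `ψ` modulo `p ^ n`
(`ZMod.castHom`), `ψ̄ = ψ̄' ∘ rG` with a character `ψ̄'`. For `x ∈ ZMod p` let `E x = 1 + p ^ n * x.val ∈ ZMod (p ^ (n + 1))`;
`E (x + y) = E x * E y` (`2 n ≥ n + 1`, `p ^ (n + 1) = 0`), `E` is injective, and every element congruent to `1` modulo
`p ^ n` is some `E x`. Let `s : GS → ZMod (p ^ (n + 1))` be a lift of `ψ̄'` which depends only on `ψ̄'` (values are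
units, as `n ≥ 1`): `s a * s b = s (a b) * E (κ a b)`, `κ` locally constant, and by associativity
`κ a b + κ (a b) c = κ b c + κ a (b c)`; so by `H2Z` for the trivial character (`S_Hst`)
`κ a b = β a + β b - β (a b)`, `β` locally constant. `s' a = s a * E (- β a)` is a character of `GS` which lifts `ψ̄'`.
Hence `ψ σ = s' (rG σ) * E (η σ)` with a homomorphism `η` (locally constant), and for geometric `g` outside:
`ψ (rsH ι g) = 1`, `s' (rG (rsH ι g)) = s' (rOm ι g) = s' 1 = 1` (`S_Onr`), so `η (rsH ι g) = 0`. By `S_Nrg` (2)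
`η = η' ∘ rG`, `ψ' = s' * E η'`. The congruence of `ψ'` with `omS`: `rG` is surjective. -/
def S_Psf : Prop :=
  ∀ (p : ℕ) [Fact p.Prime] (K : Type) [Field K] [CharP K p], GFld p K →
    ∀ (J : Type) (av : J → AbsoluteValue K ℝ) (α : Kgs K) (h : K), HS p av α h →
    ∀ (n : ℕ) (ψ : Gal(Kgs K/K) → ZMod (p ^ n)), IsLocallyConstant ψ → ψ 1 = 1 →
      (∀ σ τ, ψ (σ * τ) = ψ σ * ψ τ) →
      (∀ σ, ∃ y, ψ σ = ((omc p α σ).val : ZMod (p ^ n)) + p * y) →
      Unr p av (fun σ => ψ σ - 1) →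
      ∃ ψ' : GS p av α → ZMod (p ^ n), IsLocallyConstant ψ' ∧ ψ' 1 = 1 ∧
        (∀ a b, ψ' (a * b) = ψ' a * ψ' b) ∧
        (∀ a, ∃ y, ψ' a = ((omS p av α a).val : ZMod (p ^ n)) + p * y) ∧
        ∀ σ, ψ σ = ψ' (rG p av α σ)

/-- **Dep** (200 lines, uses `S_Na`, `S_Dsc`, `S_App`, `S_Lc1`). Most `D` are deep.

Proof. Let `w = av j`, of the type `LF` with uniformizer `ϖ` (`S_Dsc`), `M > 1`. Let `N_M` be the set of the `D ∈ OS av`
such that `‖D - (y ^ p - y)‖ < M` for some `y ∈ w.Completion`, a subgroup (`y ↦ y ^ p - y` is additive, the norm is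
ultrametric). (a) If `w D = w ϖ ^ (- l)` with `l` a positive integer prime to `p` and `w D ≥ M` then `D ∉ N_M`: if `‖y‖ ≤ 1`
then `‖y ^ p - y‖ ≤ 1 < w D`, if `‖y‖ > 1` then `‖y ^ p - y‖ = ‖y‖ ^ p = w ϖ ^ (- p i) ≠ w D`; in both cases
`‖D - (y ^ p - y)‖ ≥ w D ≥ M`. (b) Let `C` be as in `S_App` for `j0 = j` (`ε = 1`) and `L` an integer. Choose `L` integers
`l_1 < .. < l_L` prime to `p` with `w ϖ ^ (- l_1) > max C M`, and `D_i ∈ OS av` with `w (ϖ ^ (- l_i) - D_i) ≤ C`; so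
`w D_i = w ϖ ^ (- l_i)` and `w (D_i - D_k) = w ϖ ^ (- max l_i l_k)` for `i ≠ k`: they are in different cosets of `N_M`.
They are all in `FS av e₀` for some `e₀`. If `𝒟` is a finite subgroup containing `FS av e₀` then the subgroup
`N_M ∩ 𝒟` of `𝒟` has index at least `L`, so `#(N_M ∩ 𝒟) ≤ #𝒟 / L`. For several `j ∈ J` (finite) take the maximum of
the `e₀` and the sum. -/
def S_Dep : Prop :=
  ∀ (p : ℕ) [Fact p.Prime] (K : Type) [Field K] [CharP K p], GFld p K →
    ∀ (J : Type) [Finite J] (av : J → AbsoluteValue K ℝ), Pls av → ∀ (M ε : ℝ), 0 < ε →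
      ∃ e₀ : ℕ, ∀ 𝒟 : AddSubgroup (OS av), (𝒟 : Set (OS av)).Finite → FS av e₀ ≤ 𝒟 →
        ({D : OS av | D ∈ 𝒟 ∧ ∃ j, ∃ y : (av j).Completion,
          ‖algebraMap K (av j).Completion (D : K) - (y ^ p - y)‖ < M}.ncard : ℝ) ≤
            ε * Nat.card 𝒟

end Pool.Agent.MP72P
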