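import Pool.Agent.Lib.MP_72e2e6_nt.P3.G.Spec

/-!
# MP_72e2e6_nt, theorem T3p, part G: unramified crossed homomorphisms with values in finite modules
-/

namespace Pool.Agent.MP72P

open Finset

private theorem facLcPi {G M : Type} [TopologicalSpace G] [Finite M] {f : G → M → M}
    (h : ∀ x, IsLocallyConstant fun g => f g x) : IsLocallyConstant f := by
  rw [IsLocallyConstant.iff_eventually_eq]
  intro g
  have h1 : ∀ x, ∀ᶠ g' in nhds g, f g' x = f g x := fun x =>
    (IsLocallyConstant.iff_eventually_eq _).1 (h x) g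
  have h2 := Filter.eventually_all.2 h1
  filter_upwards [h2] with g' hg'
  funext x
  exact hg' x

private theorem facLcComp {A B C : Type} [TopologicalSpace A] [TopologicalSpace B] {f : B → C}
    (hf : IsLocallyConstant f) {k : A → B} (hk : Continuous k) :
    IsLocallyConstant fun a => f (k a) := hf.comp_continuous hk

private theorem facLc2 {A B C D : Type} [TopologicalSpace A] {f : A → B} {g : A → C}
    (hf : IsLocallyConstant f) (hg : IsLocallyConstant g) (F : B → C → D) :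
    IsLocallyConstant fun a => F (f a) (g a) := hf.comp₂ hg F

section

variable {p : ℕ} [Fact p.Prime] {G M : Type} [Group G] [TopologicalSpace G] [AddCommGroup M]
  {ω : G → ZMod p}

/-- The multiples of an element of order `p`. -/
private def facSm (m₁ : M) (c : ZMod p) : M := c.val • m₁

private theorem facSm_nat {m₁ : M} (h2 : p • m₁ = 0) (n : ℕ) :
    facSm m₁ (n : ZMod p) = n • m₁ := by
  unfold facSm
  rw [ZMod.val_natCast]
  conv_rhs => rw [← Nat.div_add_mod n p]
  rw [add_nsmul, mul_nsmul, h2, nsmul_zero, zero_add]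

private theorem facSm_zero (m₁ : M) : facSm m₁ (0 : ZMod p) = 0 := by
  unfold facSm
  rw [ZMod.val_zero, zero_nsmul]

private theorem facSm_add {m₁ : M} (h2 : p • m₁ = 0) (c d : ZMod p) :
    facSm m₁ (c + d) = facSm m₁ c + facSm m₁ d := by
  have e : c + d = ((c.val + d.val : ℕ) : ZMod p) := by
    push_cast
    rw [ZMod.natCast_zmod_val, ZMod.natCast_zmod_val]
  rw [e, facSm_nat h2, add_nsmul]
  rfl

private theorem facSm_mul {m₁ : M} (h2 : p • m₁ = 0) (c d : ZMod p) :
    facSm m₁ (c * d) = d.val • (c.val • m₁) := by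
  have e : c * d = ((c.val * d.val : ℕ) : ZMod p) := by
    push_cast
    rw [ZMod.natCast_zmod_val, ZMod.natCast_zmod_val]
  rw [e, facSm_nat h2, mul_comm, ← mul_nsmul']

private theorem facSm_inj {m₁ : M} (h2 : p • m₁ = 0) (h0 : m₁ ≠ 0) {c d : ZMod p}
    (h : facSm m₁ c = facSm m₁ d) : c = d := by
  have h1 : facSm m₁ (c - d) + facSm m₁ d = facSm m₁ c := by
    rw [← facSm_add h2, sub_add_cancel]
  rw [h, add_eq_right] at h1
  have h3 : addOrderOf m₁ = p := addOrderOf_eq_prime h2 h0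
  have h4 : addOrderOf m₁ ∣ (c - d).val := addOrderOf_dvd_iff_nsmul_eq_zero.2 h1
  rw [h3] at h4
  have h5 : (c - d).val = 0 := Nat.eq_zero_of_dvd_of_lt h4 (ZMod.val_lt _)
  rw [ZMod.val_eq_zero] at h5
  exact sub_eq_zero.1 h5

omit [Fact p.Prime] in
private theorem facRho_zero {ρ : G → M → M} (hρ : ActP p ω ρ) (g : G) : ρ g 0 = 0 := by
  have := hρ.add g 0 0
  rw [add_zero] at this
  exact left_eq_add.1 this

omit [Fact p.Prime] in
private theorem facRho_nsmul {ρ : G → M → M} (hρ : ActP p ω ρ) (g : G) (n : ℕ) (x : M) :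
    ρ g (n • x) = n • ρ g x := by
  induction n with
  | zero => rw [zero_nsmul, zero_nsmul, facRho_zero hρ]
  | succ n ih => rw [succ_nsmul, succ_nsmul, hρ.add, ih]

omit [Fact p.Prime] in
private theorem facRho_neg {ρ : G → M → M} (hρ : ActP p ω ρ) (g : G) (x : M) :
    ρ g (-x) = -ρ g x := by
  have := hρ.add g (-x) x
  rw [neg_add_cancel, facRho_zero hρ] at this
  exact (neg_eq_of_add_eq_zero_left this.symm).symm

omit [Fact p.Prime] in
private theorem facRho_sub {ρ : G → M → M} (hρ : ActP p ω ρ) (g : G) (x y : M) :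
    ρ g (x - y) = ρ g x - ρ g y := by
  rw [sub_eq_add_neg, hρ.add, facRho_neg hρ, sub_eq_add_neg]

private theorem facSm_fix {ρ : G → M → M} (hρ : ActP p ω ρ) {m₁ : M} (h2 : p • m₁ = 0)
    (hf : ∀ g, ρ g m₁ = (ω g).val • m₁) (g : G) (c : ZMod p) :
    ρ g (facSm m₁ c) = facSm m₁ (ω g * c) := by
  rw [facSm_mul h2, ← hf]
  exact facRho_nsmul hρ g _ _

/-- The subgroup of order `p`. -/
private def facN {m₁ : M} (h2 : p • m₁ = 0) : AddSubgroup M :=
  AddMonoidHom.range (AddMonoidHom.mk' (facSm (p := p) m₁) (facSm_add h2))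

private theorem mem_facN {m₁ : M} {h2 : p • m₁ = 0} {x : M} :
    x ∈ facN h2 ↔ ∃ c : ZMod p, facSm m₁ c = x := Iff.rfl

private theorem facN_card {m₁ : M} {h2 : p • m₁ = 0} (h0 : m₁ ≠ 0) :
    Nat.card (facN h2) = p := by
  have h : Function.Injective (AddMonoidHom.mk' (facSm (p := p) m₁) (facSm_add h2)) :=
    fun c d h => facSm_inj h2 h0 h
  have e := Nat.card_congr (AddMonoidHom.ofInjective h).toEquiv
  rw [Nat.card_zmod] at e
  exact e.symm

/-- The induced operators. -/
private def facQ {ρ : G → M → M} (hρ : ActP p ω ρ) {m₁ : M} (h2 : p • m₁ = 0)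
    (hf : ∀ g, ρ g m₁ = (ω g).val • m₁) (g : G) : M ⧸ facN h2 → M ⧸ facN h2 :=
  QuotientAddGroup.map (facN h2) (facN h2) (AddMonoidHom.mk' (ρ g) (hρ.add g)) (by
    rintro x ⟨c, rfl⟩
    exact ⟨ω g * c, (facSm_fix hρ h2 hf g c).symm⟩)

private theorem facQ_mk {ρ : G → M → M} (hρ : ActP p ω ρ) {m₁ : M} (h2 : p • m₁ = 0)
    (hf : ∀ g, ρ g m₁ = (ω g).val • m₁) (g : G) (x : M) :
    facQ hρ h2 hf g (QuotientAddGroup.mk x) = QuotientAddGroup.mk (ρ g x) := rfl

private theorem facQ_act {ρ : G → M → M} (hρ : ActP p ω ρ) {m₁ : M} (h2 : p • m₁ = 0)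
    (hf : ∀ g, ρ g m₁ = (ω g).val • m₁) : ActP p ω (facQ hρ h2 hf) := by
  constructor
  · intro g x y
    obtain ⟨x, rfl⟩ := QuotientAddGroup.mk_surjective x
    obtain ⟨y, rfl⟩ := QuotientAddGroup.mk_surjective y
    rw [← QuotientAddGroup.mk_add, facQ_mk, facQ_mk, facQ_mk, hρ.add, QuotientAddGroup.mk_add]
  · intro x
    obtain ⟨x, rfl⟩ := QuotientAddGroup.mk_surjective x
    rw [facQ_mk, hρ.one]
  · intro g h x
    obtain ⟨x, rfl⟩ := QuotientAddGroup.mk_surjective x
    rw [facQ_mk, facQ_mk, facQ_mk, hρ.mul]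
  · intro x
    obtain ⟨x, rfl⟩ := QuotientAddGroup.mk_surjective x
    exact (hρ.loc x).comp (QuotientAddGroup.mk : M → M ⧸ facN h2)
  · intro g
    obtain ⟨k, hk⟩ := hρ.uni g
    refine ⟨k, fun x => ?_⟩
    obtain ⟨x, rfl⟩ := QuotientAddGroup.mk_surjective x
    rw [facQ_mk, hk]
    exact map_nsmul (QuotientAddGroup.mk' (facN h2)) _ x

private theorem facMk_eq {m₁ : M} {h2 : p • m₁ = 0} {x y : M}
    (h : (QuotientAddGroup.mk x : M ⧸ facN h2) = QuotientAddGroup.mk y) :
    ∃ c : ZMod p, facSm m₁ c = x - y := by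
  have h1 := (QuotientAddGroup.eq (s := facN h2)).1 h.symm
  rw [neg_add_eq_sub] at h1
  exact mem_facN.1 h1

end

private theorem facAux (hFix : S_Fix) (hHst : S_Hst) (hRgo : S_Rgo) (hOnr : S_Onr) (hNrg : S_Nrg)
    (p : ℕ) [Fact p.Prime] (K : Type) [Field K] [CharP K p] (hK : GFld p K)
    (J : Type) (av : J → AbsoluteValue K ℝ) (α : Kgs K) (h : K) (hS : HS p av α h) :
    ∀ (r : ℕ) (M : Type) [AddCommGroup M] [Finite M], Nat.card M = p ^ r →
    ∀ ρ : GS p av α → M → M, ActP p (omS p av α) ρ →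
    ∀ c : Gal(Kgs K/K) → M, Coc (fun σ => ρ (rG p av α σ)) c → Unr p av c →
      ∃ c' : GS p av α → M, Coc ρ c' ∧ ∀ σ, c σ = c' (rG p av α σ) := by
  obtain ⟨-, -, -, -, -, -, hω, hH, -⟩ := hHst p K hK J av α h hS
  obtain ⟨hcont, -, -, hom, -, -, hloc3⟩ := hRgo p K hK J av α h hS
  intro r
  induction r with
  | zero =>
    intro M _ _ hM ρ hρ c hc hu
    rw [pow_zero, Nat.card_eq_one_iff_unique] at hM
    obtain ⟨hs, -⟩ := hM
    exact ⟨0, ⟨IsLocallyConstant.const 0, fun g h => Subsingleton.elim _ _⟩,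
      fun σ => Subsingleton.elim _ _⟩
  | succ r ih =>
    intro M _ _ hM ρ hρ c hc hu
    have hnt : Nontrivial M := by
      rw [← Finite.one_lt_card_iff_nontrivial, hM]
      exact Nat.one_lt_pow (Nat.succ_ne_zero r) (Fact.out : p.Prime).one_lt
    obtain ⟨m₁, h0, h2, hf⟩ := hFix p (GS p av α) M (omS p av α) ρ hω hρ (r + 1) hM hnt
    have hcard : Nat.card (M ⧸ facN h2) = p ^ r := by
      have e := AddSubgroup.card_eq_card_quotient_mul_card_addSubgroup (facN h2)
      rw [facN_card h0, hM, pow_succ] at e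
      exact (Nat.eq_of_mul_eq_mul_right (Fact.out : p.Prime).pos e).symm
    obtain ⟨Z2, hZ2c, hZ2⟩ := ih (M ⧸ facN h2) hcard (facQ hρ h2 hf)
      (facQ_act hρ h2 hf) (fun σ => QuotientAddGroup.mk (c σ))
      ⟨hc.loc.comp _, fun g h => by rw [hc.mul, facQ_mk, QuotientAddGroup.mk_add]⟩ (by
        intro v hv hv2
        obtain ⟨ι, hι⟩ := hu v hv hv2
        refine ⟨ι, fun g hg => ?_⟩
        change (QuotientAddGroup.mk (c (rsH (M := v.Completion) ι g)) : M ⧸ facN h2) = 0
        rw [hι g hg]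
        rfl)
    -- coordinates of the elements of `N`
    obtain ⟨t, ht⟩ : ∃ t : M → ZMod p, ∀ c, t (facSm m₁ c) = c :=
      ⟨Function.invFun (facSm m₁), fun c =>
        Function.leftInverse_invFun (fun c d h => facSm_inj h2 h0 h) c⟩
    have hst : ∀ x, (∃ c : ZMod p, facSm m₁ c = x) → facSm m₁ (t x) = x := by
      rintro _ ⟨c, rfl⟩
      rw [ht]
    have hsub : ∀ c d : ZMod p, facSm m₁ (c - d) = facSm m₁ c - facSm m₁ d := by
      intro c d
      have h1 : facSm m₁ (c - d) + facSm m₁ d = facSm m₁ c := by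
        rw [← facSm_add h2, sub_add_cancel]
      rw [← h1]
      abel
    have hloc : IsLocallyConstant ρ := facLcPi hρ.loc
    obtain ⟨s, hs⟩ : ∃ s : M ⧸ facN h2 → M, ∀ x, (QuotientAddGroup.mk (s x) : M ⧸ facN h2) = x :=
      ⟨Function.surjInv QuotientAddGroup.mk_surjective,
        Function.surjInv_eq QuotientAddGroup.mk_surjective⟩
    set Z1 : GS p av α → M := fun g => s (Z2 g) with hZ1
    have hZ1l : IsLocallyConstant Z1 := hZ2c.loc.comp s
    have hm : ∀ g h, facSm m₁ (t (Z1 g + ρ g (Z1 h) - Z1 (g * h))) =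
        Z1 g + ρ g (Z1 h) - Z1 (g * h) := by
      intro g h
      apply hst
      apply facMk_eq (h2 := h2)
      rw [QuotientAddGroup.mk_add, ← facQ_mk hρ h2 hf, hs, hs, hs, hZ2c.mul]
    obtain ⟨b, hbl, hb⟩ := hH (fun g h => t (Z1 g + ρ g (Z1 h) - Z1 (g * h))) (by
      have e1 : IsLocallyConstant fun p : GS p av α × GS p av α => Z1 p.1 :=
        facLcComp hZ1l continuous_fst
      have e2 : IsLocallyConstant fun p : GS p av α × GS p av α => Z1 p.2 :=
        facLcComp hZ1l continuous_snd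
      have e3 : IsLocallyConstant fun p : GS p av α × GS p av α => Z1 (p.1 * p.2) :=
        facLcComp hZ1l continuous_mul
      have e4 : IsLocallyConstant fun p : GS p av α × GS p av α => ρ p.1 :=
        facLcComp hloc continuous_fst
      exact facLc2 (facLc2 e1 (facLc2 e4 e2 fun r x => r x) fun x y => x + y) e3
        fun x y => t (x - y)) (by
      intro a b d
      apply facSm_inj h2 h0
      rw [hsub, facSm_add h2, hsub, facSm_zero, ← facSm_fix hρ h2 hf, hm b d, hm (a * b) d,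
        hm a (b * d), hm a b, facRho_sub hρ, hρ.add, hρ.mul, mul_assoc]
      abel)
    have hZ3 : ∀ g h, Z1 (g * h) - facSm m₁ (b (g * h)) =
        (Z1 g - facSm m₁ (b g)) + ρ g (Z1 h - facSm m₁ (b h)) := by
      intro g h
      have e1 := hm g h
      rw [hb, hsub, facSm_add h2] at e1
      rw [facRho_sub hρ, facSm_fix hρ h2 hf]
      have e2 : Z1 (g * h) = Z1 g + ρ g (Z1 h) -
          (facSm m₁ (b g) + facSm m₁ (omS p av α g * b h) - facSm m₁ (b (g * h))) := by
        rw [e1]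
        abel
      rw [e2]
      abel
    set Z3 : GS p av α → M := fun g => Z1 g - facSm m₁ (b g) with hZ3d
    have hZ3c : Coc ρ Z3 := ⟨facLc2 hZ1l hbl fun x y => x - facSm m₁ y, hZ3⟩
    have hZ31 : Z3 1 = 0 := by
      have e := hZ3c.mul 1 1
      rw [mul_one, hρ.one] at e
      exact left_eq_add.1 e
    have hq : ∀ g, (QuotientAddGroup.mk (Z3 g) : M ⧸ facN h2) = Z2 g := by
      intro g
      have e : (QuotientAddGroup.mk (facSm m₁ (b g)) : M ⧸ facN h2) = 0 := by
        rw [QuotientAddGroup.eq_zero_iff]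
        exact ⟨b g, rfl⟩
      rw [hZ3d]
      change (QuotientAddGroup.mk (Z1 g - facSm m₁ (b g)) : M ⧸ facN h2) = Z2 g
      rw [QuotientAddGroup.mk_sub, e, sub_zero, hs]
    have hD : ∀ σ, facSm m₁ (t (c σ - Z3 (rG p av α σ))) = c σ - Z3 (rG p av α σ) := by
      intro σ
      apply hst
      apply facMk_eq (h2 := h2)
      rw [hq]
      exact hZ2 σ
    have hcoc : Coc (fun σ (x : ZMod p) => omc p α σ * x)
        (fun σ => t (c σ - Z3 (rG p av α σ))) := by
      refine ⟨facLc2 hc.loc (facLcComp hZ3c.loc hcont) fun x y => t (x - y), fun σ τ => ?_⟩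
      apply facSm_inj h2 h0
      rw [facSm_add h2, ← hom, ← facSm_fix hρ h2 hf, hD, hD, hD, hc.mul, map_mul, hZ3c.mul,
        facRho_sub hρ _ (c τ) (Z3 (rG p av α τ))]
      abel
    have hunr : Unr p av (fun σ => t (c σ - Z3 (rG p av α σ))) := by
      intro v hv hv2
      obtain ⟨ι, hι⟩ := hu v hv hv2
      refine ⟨ι, fun g hg => ?_⟩
      have e1 := (hOnr p K hK J av α h hS v hv hv2 ι).2.2 g hg
      have e2 := (hloc3 v ι).2.1 g
      change t (c (rsH (M := v.Completion) ι g) - Z3 (rG p av α (rsH (M := v.Completion) ι g))) = 0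
      rw [hι g hg, ← e2, e1, hZ31, sub_zero, ← facSm_zero (p := p) m₁, ht]
    obtain ⟨H', hH'c, hH'⟩ := (hNrg p K hK J av α h hS).1 _ hcoc hunr
    refine ⟨fun g => Z3 g + facSm m₁ (H' g), ⟨?_, fun g h => ?_⟩, fun σ => ?_⟩
    · exact facLc2 hZ3c.loc hH'c.loc fun x y => x + facSm m₁ y
    · rw [hZ3c.mul, hH'c.mul, facSm_add h2, hρ.add, facSm_fix hρ h2 hf]
      abel
    · change c σ = Z3 (rG p av α σ) + facSm m₁ (H' (rG p av α σ))
      rw [← hH' σ, hD]
      abel

/-- **Fac**. Unramified crossed homomorphisms with values in finite modules factor through `GS`. -/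
theorem tFac (h1 : S_Fix) (h2 : S_Hst) (h3 : S_Rgo) (h4 : S_Onr) (h5 : S_Nrg) : S_Fac := by
  intro p _ K _ _ hK J av α h hS M _ _ r hM ρ hρ c hc hu
  exact facAux h1 h2 h3 h4 h5 p K hK J av α h hS r M hM ρ hρ c hc hu

end Pool.Agent.MP72P
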